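import Pool.Agent.Run7.h784.TG.All
import Pool.Agent.Run7.h784.TG.Scl
import Pool.Agent.N415.PJ.MAIN
import Pool.Agent.N615.JM.FamT2
import Pool.Agent.N738.PJ.Exs
import Pool.Agent.N134.PJ.Irk
import Pool.Agent.N352.JB.All
import Pool.Agent.N874.Jac.Def
import Pool.Agent.N844.QF.Sel

/-!
# Project TG: the family and the theorem on all twists, for the ports (helper886)

The definitions and the two parts of the theorem follow `Results/MP_60d5ce_nt/PositiveProportionOfTwists.lean`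
(helper784).
-/

set_option autoImplicit false
set_option linter.all false

open Polynomial Filter IsDedekindDomain
open scoped Classical
open Pool.Agent.N874.Jac (J mapJ Cochain Cocycle TrivialAtPrimes UniquelyTwoDivisible
  ShaTwoTrivial)

namespace Run7.h886.TG

section fam

variable {k : Type} [Field k]

/-- The reduction at infinity. -/
noncomputable def atInf (g M : ℕ) (f : k[X][X]) : k[X] :=
  X ^ (2 * g + 1) + ∑ j ∈ Finset.range (2 * g + 1), C ((f.coeff j).coeff (M * (2 * g + 1 - j))) * X ^ j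

/-- `Fam` without the choice of the reduction at infinity -/
structure InFam (g N : ℕ) (f : k[X][X]) : Prop where
  ht : Pool.Agent.N352.PJ.Ht g (2 * N) f
  inert : Irreducible (atInf g (2 * N) f)
  sq : Squarefree (Pool.Agent.N352.PJ.dsc g f)

theorem coeff_atInf (g M : ℕ) (f : k[X][X]) (i : ℕ) : (atInf g M f).coeff i =
    if i = 2 * g + 1 then 1 else if i ≤ 2 * g then (f.coeff i).coeff (M * (2 * g + 1 - i)) else 0 := by
  unfold atInf
  rw [coeff_add, coeff_X_pow, finset_sum_coeff]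
  simp only [coeff_C_mul, coeff_X_pow]
  by_cases h1 : i = 2 * g + 1
  · rw [if_pos h1, if_pos h1, Finset.sum_eq_zero, add_zero]
    intro j hj
    rw [if_neg (by have := Finset.mem_range.1 hj; omega), mul_zero]
  · rw [if_neg h1, if_neg h1, zero_add]
    by_cases h2 : i ≤ 2 * g
    · rw [if_pos h2, Finset.sum_eq_single i]
      · rw [if_pos rfl, mul_one]
      · intro j _ hj
        rw [if_neg (Ne.symm hj), mul_zero]
      · intro hi
        exact absurd (Finset.mem_range.2 (by omega)) hi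
    · rw [if_neg h2, Finset.sum_eq_zero]
      intro j hj
      rw [if_neg (by have := Finset.mem_range.1 hj; omega), mul_zero]

theorem InFam.fm [Finite k] {g N : ℕ} {f : k[X][X]} (h : InFam g N f) (hg : 1 ≤ g)
    (hN : 1 ≤ N) (h2 : (2 : k) ≠ 0) : Run7.h784.TG.Fm g N (atInf g (2 * N) f) f := by
  have hd : (atInf g (2 * N) f).natDegree = 2 * g + 1 := by
    refine natDegree_eq_of_le_of_coeff_ne_zero (natDegree_le_iff_coeff_eq_zero.2 fun i hi => ?_) ?_
    · rw [coeff_atInf, if_neg (by omega), if_neg (by omega)]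
    · rw [coeff_atInf, if_pos rfl]
      exact one_ne_zero
  refine ⟨hg, hN, h2, ⟨?_, h.inert, hd, ?_⟩, ⟨h.ht, ?_, ?_, h.sq⟩⟩
  · rw [Monic, leadingCoeff, hd, coeff_atInf, if_pos rfl]
  · rw [coeff_atInf, if_neg (by omega), if_pos le_rfl, h.ht.tr, coeff_zero]
  · intro j hj
    rw [coeff_atInf, if_neg (by omega), if_pos hj]
  · intro Q hQ
    exact absurd hQ (Finset.notMem_empty Q)

theorem InFam.of_fm {g N : ℕ} {r : k[X]} {f : k[X][X]} (hr : Pool.Agent.N352.PJ.GoodR g r)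
    {S : Finset k[X]} {h : k[X] → k[X][X]} (hf : Pool.Agent.N352.PJ.Fam g N r S h f) :
    InFam g N f := by
  have h1 : atInf g (2 * N) f = r := by
    ext i
    rw [coeff_atInf]
    by_cases h1 : i = 2 * g + 1
    · rw [if_pos h1, h1]
      have h3 := hr.1.coeff_natDegree
      rw [hr.2.2.1] at h3
      exact h3.symm
    · rw [if_neg h1]
      by_cases h2 : i ≤ 2 * g
      · rw [if_pos h2, hf.inf i h2]
      · rw [if_neg h2, coeff_eq_zero_of_natDegree_lt (by rw [hr.2.2.1]; omega)]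
  exact ⟨hf.ht, by rw [h1]; exact hr.2.1, hf.sq⟩

/-- The family is a positive proportion of all `f`. -/
theorem fam_pos [Finite k] (g : ℕ) (hg : 1 ≤ g) (hp : ((2 * g + 1).factorial : k) ≠ 0) :
    ∃ c : ℝ, 0 < c ∧ ∀ᶠ N : ℕ in atTop,
      0 < {f : k[X][X] | Pool.Agent.N352.PJ.Ht g (2 * N) f}.ncard ∧
      c * ({f : k[X][X] | Pool.Agent.N352.PJ.Ht g (2 * N) f}.ncard : ℝ) ≤
        ({f : k[X][X] | InFam g N f}.ncard : ℝ) := by
  obtain ⟨r, hr⟩ := Pool.Agent.N738.PJ.gr g k hp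
  obtain ⟨c, hc, h⟩ := Pool.Agent.N615.JM.fam g k hg hp r hr
  obtain ⟨N₀, hN₀⟩ := h ∅ (fun _ => 0) (fun Q hQ => absurd hQ (Finset.notMem_empty Q))
  have hq : (0 : ℝ) < Nat.card k := by exact_mod_cast Nat.card_pos
  refine ⟨c / (Nat.card k : ℝ) ^ (2 * g), by positivity, ?_⟩
  filter_upwards [eventually_ge_atTop N₀] with N hN
  have h1 := hN₀ N hN
  rw [Finset.prod_empty, Nat.cast_one, one_mul] at h1
  obtain ⟨hfin, hle⟩ := Pool.Agent.N415.PJMAIN.ht_card (k := k) g (2 * N)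
  have hsub : {f : k[X][X] | Pool.Agent.N352.PJ.Fam g N r ∅ (fun _ => 0) f} ⊆
      {f : k[X][X] | InFam g N f} := fun f hf => InFam.of_fm hr hf
  have hsub2 : {f : k[X][X] | InFam g N f} ⊆ {f : k[X][X] | Pool.Agent.N352.PJ.Ht g (2 * N) f} :=
    fun f hf => hf.ht
  have h2 := Set.ncard_le_ncard hsub (hfin.subset hsub2)
  have h3 := Set.ncard_le_ncard hsub2 hfin
  have h4 : (0 : ℝ) < c * (Nat.card k : ℝ) ^ (2 * N * Pool.Agent.N352.PJ.dd g) := by positivity
  have h5 : (({f : k[X][X] | Pool.Agent.N352.PJ.Fam g N r ∅ (fun _ => 0) f}.ncard : ℕ) : ℝ) ≤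
      ({f : k[X][X] | InFam g N f}.ncard : ℝ) := by exact_mod_cast h2
  refine ⟨?_, ?_⟩
  · have h6 : (0 : ℝ) < ({f : k[X][X] | InFam g N f}.ncard : ℝ) := by linarith
    have h7 : 0 < {f : k[X][X] | InFam g N f}.ncard := by exact_mod_cast h6
    omega
  · refine le_trans ?_ (h1.trans h5)
    have h8 : ({f : k[X][X] | Pool.Agent.N352.PJ.Ht g (2 * N) f}.ncard : ℝ) ≤
        (Nat.card k : ℝ) ^ (2 * N * Pool.Agent.N352.PJ.dd g + 2 * g) := by exact_mod_cast hle
    refine (mul_le_mul_of_nonneg_left h8 (by positivity)).trans (le_of_eq ?_)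
    rw [pow_add]
    field_simp

end fam

/-- The Selmer groups `Sel(J, 2 ^ m)` of the Jacobian `J` of `y ^ 2 = F(x)` are zero. -/
def SelZ (R : Type) {M : Type} [Field M] [CommRing R] [IsDedekindDomain R] [Algebra R M]
    [IsFractionRing R M] (F : M[X]) : Prop :=
  ∀ (m : ℕ) (c : Cochain F), Cocycle c → (∀ σ, c σ ^ 2 ^ m = 1) → TrivialAtPrimes R c →
    ∃ P : J F (SeparableClosure M), P ^ 2 ^ m = 1 ∧ ∀ σ, c σ = mapJ F σ.toAlgHom P / P

section tw

variable {k : Type} [Field k] (K : Type) [Field K] [Algebra k[X] K] [IsFractionRing k[X] K]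

/-- The good twists. -/
def GoodTw (g : ℕ) (f : k[X][X]) (u : k) (m : ℕ) : Set k[X] :=
  {D | D.leadingCoeff = u ∧ D.natDegree = m ∧ Squarefree D ∧
    IsCoprime D (Pool.Agent.N352.PJ.dsc g f) ∧
    Irreducible ((f.scaleRoots D).map (algebraMap k[X] K)) ∧
    UniquelyTwoDivisible ((f.scaleRoots D).map (algebraMap k[X] K)) ∧
    ShaTwoTrivial ((f.scaleRoots D).map (algebraMap k[X] K)) k[X] ∧
    SelZ k[X] ((f.scaleRoots D).map (algebraMap k[X] K))}

theorem fin_deg [Finite k] (m : ℕ) : {D : k[X] | D.natDegree = m}.Finite := by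
  haveI : Finite (degreeLT k (m + 1)) := Finite.of_equiv _ (degreeLTEquiv k (m + 1)).symm.toEquiv
  have h5 : {D : k[X] | D.natDegree = m} ⊆
      ((degreeLT k (m + 1) : Submodule k k[X]) : Set k[X]) := by
    intro D hD
    rw [SetLike.mem_coe, mem_degreeLT]
    exact lt_of_le_of_lt (natDegree_le_iff_degree_le.1 hD.le) (by exact_mod_cast Nat.lt_succ_self m)
  exact (Set.toFinite _).subset h5

variable {K}

theorem two_ne [Finite k] (h2 : (2 : k) ≠ 0) : (2 : K) ≠ 0 := by
  intro h0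
  apply h2
  have h1 : Function.Injective ((algebraMap k[X] K).comp (C : k →+* k[X])) :=
    RingHom.injective _
  apply h1
  rw [map_zero, map_ofNat, h0]

variable (K)

/-- One leading coefficient. -/
theorem tw_one [Finite k] (h2 : (2 : k) ≠ 0) {g N : ℕ} (hg : 1 ≤ g) (hN : 1 ≤ N) {f : k[X][X]}
    (hf : InFam g N f) (u : k) (hu : u ≠ 0) :
    ∃ c : ℝ, 0 < c ∧ ∀ᶠ m : ℕ in atTop,
      c * (Nat.card k : ℝ) ^ m ≤ ((GoodTw K g f u m).ncard : ℝ) := by
  have hF := hf.fm hg hN h2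
  obtain ⟨c, hc, N₀, h⟩ := Run7.h784.TG.fin k g N _ _ (Run7.h784.TG.fm_scale hF hu) K
  refine ⟨c, hc, ?_⟩
  filter_upwards [eventually_ge_atTop N₀] with m hm
  refine (h m hm).trans ?_
  have hCu : (C u : k[X]) ≠ 0 := C_ne_zero.2 hu
  have hinj : Function.Injective (fun D : k[X] => C u * D) := mul_right_injective₀ hCu
  have h2K : (2 : K) ≠ 0 := two_ne h2
  have hfin : (GoodTw K g f u m).Finite := (fin_deg m).subset fun D hD => hD.2.1
  have hsub : (fun D : k[X] => C u * D) '' {D : k[X] | D.Monic ∧ D.natDegree = m ∧ Squarefree D ∧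
      IsCoprime D (Pool.Agent.N352.PJ.dsc g (f.scaleRoots (C u))) ∧
      Pool.Agent.N352.PJ.SelZero K ((f.scaleRoots (C u)).scaleRoots D)} ⊆
      GoodTw K g f u m := by
    rintro _ ⟨D, ⟨hDm, hDd, hDs, hDc, hD⟩, rfl⟩
    have hD0 : C u * D ≠ 0 := mul_ne_zero hCu hDm.ne_zero
    have hunit : IsUnit (C u : k[X]) := isUnit_C.2 (isUnit_iff_ne_zero.2 hu)
    have hD' : Pool.Agent.N352.PJ.SelZero K (f.scaleRoots (C u * D)) := by
      rw [scaleRoots_mul]
      exact hD
    have hirk := Pool.Agent.N134.PJ.irk g k K f N (atInf g (2 * N) f) (C u * D) hF.fam.ht hF.gr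
      hF.fam.inf hD0
    have hmon : (f.scaleRoots (C u * D)).Monic := (monic_scaleRoots_iff _).2 hf.ht.mon
    have hodd : Odd (f.scaleRoots (C u * D)).natDegree := by
      rw [natDegree_scaleRoots, hf.ht.deg]
      exact ⟨g, rfl⟩
    have hsep := (hirk.2.2 hF.fam.sq.ne_zero).2
    obtain ⟨hb, hs⟩ := Pool.Agent.N352.JB.fin h2K hmon hirk.2.1 hsep hodd hD'
    have hU := Pool.Agent.N874.Jac.div_of _ hb
    have hS := Pool.Agent.N874.Jac.sha_of _ k[X] hs
    refine ⟨?_, ?_, ?_, ?_, hirk.2.1, hU, hS, fun m c hc h1 hl => ?_⟩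
    · rw [leadingCoeff_mul, leadingCoeff_C, hDm.leadingCoeff, mul_one]
    · rw [natDegree_C_mul hu, hDd]
    · exact (Associated.squarefree_iff ⟨hunit.unit, by rw [IsUnit.unit_spec, mul_comm]⟩).1 hDs
    · rw [Run7.h784.TG.dsc_scale hf.ht.mon hf.ht.deg hCu] at hDc
      exact (isCoprime_mul_unit_left_left hunit _ _).2 hDc.of_mul_right_right
    · exact Pool.Agent.N844.QF.sel_zero h2K (hmon.map _) hsep
        (by rw [hmon.natDegree_map]; exact hodd) k[X] hU hS m c hc h1 hl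
  have h3 := Set.ncard_le_ncard hsub hfin
  rw [Set.ncard_image_of_injective _ hinj] at h3
  exact_mod_cast h3

/-- All leading coefficients. -/
theorem tw_all [Finite k] (h2 : (2 : k) ≠ 0) {g N : ℕ} (hg : 1 ≤ g) (hN : 1 ≤ N) {f : k[X][X]}
    (hf : InFam g N f) :
    ∃ c : ℝ, 0 < c ∧ ∀ᶠ m : ℕ in atTop, ∀ u : k, u ≠ 0 →
      c * (Nat.card k : ℝ) ^ m ≤ ((GoodTw K g f u m).ncard : ℝ) := by
  have h := fun u : kˣ => tw_one K h2 hg hN hf (u : k) u.ne_zero
  choose c hc hcm using h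
  haveI : Fintype kˣ := Fintype.ofFinite _
  refine ⟨Finset.univ.inf' Finset.univ_nonempty c, ?_, ?_⟩
  · rw [Finset.lt_inf'_iff]
    exact fun u _ => hc u
  · filter_upwards [(eventually_all.2 hcm)] with m hm u hu
    refine le_trans ?_ (hm (Units.mk0 u hu))
    have h3 : Finset.univ.inf' Finset.univ_nonempty c ≤ c (Units.mk0 u hu) :=
      Finset.inf'_le _ (Finset.mem_univ _)
    exact mul_le_mul_of_nonneg_right h3 (by positivity)

end tw

end Run7.h886.TG
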