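import Pool.Agent.Run7.h886.TG.MdC
import Pool.Agent.N134.PJ.Irk

/-!
# Plane models of the curves of factorisations: the theorem

Project TG (helper784), piece MODEL, helper886.
-/

set_option autoImplicit false
set_option linter.all false

open Polynomial
open scoped Classical

namespace Run7.h886.TG

open Run7.h784.TG (FacR mdl Fm Full big IsMd P_MODEL)
open Run7.h875.TS (IsPC)

attribute [local instance] Polynomial.algebra in
theorem alg_big {k k' K K' M : Type} [Field k] [Field k'] [Algebra k k'] [Algebra.IsAlgebraic k k']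
    [Field K] [Algebra k[X] K] [IsFractionRing k[X] K] [Field K'] [Algebra k'[X] K']
    [IsFractionRing k'[X] K'] [Field M] [Algebra K' M] [Algebra.IsAlgebraic K' M] [Algebra k[X] M]
    [Algebra K M] [IsScalarTower k[X] K M]
    (hcomp : ∀ p : k[X], algebraMap k[X] M p =
      algebraMap K' M (algebraMap k'[X] K' (p.map (algebraMap k k')))) :
    Algebra.IsAlgebraic K M := by
  haveI : Algebra.IsIntegral k k' := inferInstance
  set S : IntermediateField K M := algebraicClosure K M with hS
  have h1 : ∀ p : k'[X], algebraMap K' M (algebraMap k'[X] K' p) ∈ S := by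
    intro p
    have h2 : IsIntegral k[X] p := Algebra.IsIntegral.isIntegral p
    obtain ⟨q, hq, hq0⟩ := h2
    rw [hS, mem_algebraicClosure_iff]
    have h3 : IsIntegral k[X] (algebraMap K' M (algebraMap k'[X] K' p)) := by
      refine ⟨q, hq, ?_⟩
      have h4 : algebraMap k[X] M = ((algebraMap K' M).comp (algebraMap k'[X] K')).comp
          (algebraMap k[X] k'[X]) := by
        refine RingHom.ext fun r => ?_
        rw [hcomp]
        rfl
      rw [h4]
      have h5 := congrArg ((algebraMap K' M).comp (algebraMap k'[X] K')) hq0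
      rw [hom_eval₂, map_zero] at h5
      exact h5
    exact (h3.tower_top (A := K)).isAlgebraic
  have h2 : ∀ q : K', algebraMap K' M q ∈ S := by
    intro q
    obtain ⟨a, b, hb, rfl⟩ := IsFractionRing.div_surjective (A := k'[X]) q
    rw [map_div₀]
    exact div_mem (h1 a) (h1 b)
  set ρ : K' →+* S := (algebraMap K' M).codRestrict S.toSubfield.toSubring h2 with hρ
  constructor
  intro x
  have hx : IsIntegral K' x := (Algebra.IsAlgebraic.isAlgebraic x).isIntegral
  have h3 : IsAlgebraic S x := by
    refine ⟨(minpoly K' x).map ρ, ((minpoly.monic hx).map ρ).ne_zero, ?_⟩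
    rw [aeval_def, eval₂_map]
    exact minpoly.aeval K' x
  exact h3.restrictScalars K

/-- Two colourings of the same type are conjugate. -/
theorem conj_col {n l : ℕ} {c : Fin l → ℕ} {κ κ' : Fin n → Fin l} (h : κ ∈ Col n c)
    (h' : κ' ∈ Col n c) : ∃ σ : Equiv.Perm (Fin n), κ' = κ ∘ σ.symm := by
  rw [mem_Col] at h h'
  have h1 : ∀ i, Nonempty ({j // κ j = i} ≃ {j // κ' j = i}) := by
    intro i
    refine ⟨Fintype.equivOfCardEq ?_⟩
    rw [Fintype.card_subtype, Fintype.card_subtype, h, h']
  have ε' : ∀ i, {j // κ j = i} ≃ {j // κ' j = i} := fun i => Classical.choice (h1 i)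
  set σ : Fin n ≃ Fin n := (Equiv.sigmaFiberEquiv κ).symm.trans
    ((Equiv.sigmaCongrRight ε').trans (Equiv.sigmaFiberEquiv κ')) with hσ
  have h2 : ∀ j, κ' (σ j) = κ j := by
    intro j
    rw [hσ]
    exact (ε' (κ j) ⟨j, rfl⟩).2
  refine ⟨σ, ?_⟩
  funext j
  rw [Function.comp, ← h2, Equiv.apply_symm_apply]

theorem T_MODEL : P_MODEL := by
  intro k _ _ g N r f hF hFull l c hc hsum
  set n : ℕ := 2 * g + 1 with hn
  set k' := AlgebraicClosure k with hk'
  set K := FractionRing k[X] with hK
  set K' := FractionRing k'[X] with hK'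
  set M := AlgebraicClosure K' with hM
  set ψ : k[X] →+* K' := (algebraMap k'[X] K').comp (mapRingHom (algebraMap k k')) with hψ
  have hψinj : Function.Injective ψ := by
    intro x y h
    apply Polynomial.map_injective (algebraMap k k') (algebraMap k k').injective
    exact IsFractionRing.injective k'[X] K' h
  letI alg : Algebra k[X] M := ((algebraMap K' M).comp ψ).toAlgebra
  have hcomp : ∀ p : k[X], algebraMap k[X] M p =
      algebraMap K' M (algebraMap k'[X] K' (p.map (algebraMap k k'))) := fun p => rfl
  have hcomp2 : (algebraMap K' M).comp ψ = algebraMap k[X] M := rfl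
  have hinj : Function.Injective (algebraMap k[X] M) := by
    intro x y h
    rw [hcomp, hcomp] at h
    exact hψinj ((algebraMap K' M).injective h)
  haveI : FaithfulSMul k[X] M := (faithfulSMul_iff_algebraMap_injective _ _).2 hinj
  letI alg2 : Algebra K M := FractionRing.liftAlgebra k[X] M
  haveI : IsScalarTower k[X] K M := FractionRing.isScalarTower_liftAlgebra k[X] M
  haveI : Algebra.IsAlgebraic K M := alg_big (k := k) (k' := k') (K := K) (K' := K') hcomp
  haveI : IsAlgClosure K M := ⟨inferInstance, inferInstance⟩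
  haveI : Normal K M := IsAlgClosure.normal K M
  have hfm : f.Monic := hF.fam.ht.mon
  have hfd : f.natDegree = n := hF.fam.ht.deg
  have hfs : (f.map (algebraMap k[X] K)).Separable :=
    ((Pool.Agent.N134.PJ.irk g k K f N r 1 hF.fam.ht hF.gr hF.fam.inf one_ne_zero).2.2
      hF.fam.sq.ne_zero).1
  have hfsM : (f.map (algebraMap k[X] M)).Separable := by
    rw [IsScalarTower.algebraMap_eq k[X] K M, ← Polynomial.map_map]
    exact hfs.map
  obtain ⟨θ, hθ, hfθ⟩ := exists_idx (f.map (algebraMap k[X] M)) (hfm.map _)
    (IsAlgClosed.splits _) hfsM (n := n) (by rw [hfm.natDegree_map, hfd])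
  have hKR : Function.Injective (algebraMap k[X] K) := IsFractionRing.injective _ _
  obtain ⟨E, hE, hEid⟩ : ∃ E : k[X], E ≠ 0 ∧ ∃ A B : k[X][X], A * f + B * derivative f = C E := by
    obtain ⟨A₀, B₀, hAB⟩ := hfs
    obtain ⟨D, hD, hcl⟩ := Run7.h875.TS.clear_den (R := k[X]) {A₀, B₀}
    obtain ⟨A₁, hA₁⟩ := hcl A₀ (by simp)
    obtain ⟨B₁, hB₁⟩ := hcl B₀ (by simp)
    refine ⟨D, hD, A₁, B₁, ?_⟩
    apply Polynomial.map_injective (algebraMap k[X] K) hKR
    rw [Polynomial.map_add, Polynomial.map_mul, Polynomial.map_mul, hA₁, hB₁, map_C, ← derivative_map]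
    linear_combination C (algebraMap k[X] K D) * hAB
  obtain ⟨H, D, A, e, y, hHm, hD, hED, hdisc, hy, hH, hye, hA⟩ :=
    partA (K := K) hinj hθ f hfm hfs hfθ c E hE
  have hHd : H.natDegree = (Col n c).card := by
    rw [← hHm.natDegree_map (algebraMap k[X] M), hH,
      natDegree_prod_of_monic _ _ fun _ _ => monic_X_sub_C _]
    simp
  obtain ⟨κ₀, hκ₀⟩ := Col_nonempty (c := c) (n := n) hsum
  have hpos : 0 < (Col n c).card := Finset.card_pos.2 ⟨κ₀, hκ₀⟩
  have hirr : Irreducible (H.map (mapRingHom (algebraMap k k'))) := by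
    have hHψ : eval₂ (algebraMap K' M) (y κ₀) (H.map ψ) = 0 := by
      rw [eval₂_map, hcomp2, ← eval_map, hH, eval_prod]
      exact Finset.prod_eq_zero hκ₀ (by simp)
    have hyint : IsIntegral K' (y κ₀) := ⟨H.map ψ, hHm.map ψ, hHψ⟩
    -- the degree of the minimal polynomial
    have hge : (Col n c).card ≤ (minpoly K' (y κ₀)).natDegree := by
      have h1 : (Col n c).image y ⊆ ((minpoly K' (y κ₀)).map (algebraMap K' M)).roots.toFinset := by
        intro z hz
        obtain ⟨κ, hκ, rfl⟩ := Finset.mem_image.1 hz
        obtain ⟨σ, hσ⟩ := conj_col hκ₀ hκ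
        have hr : ∀ j, eval₂ (big k k' K' M) (θ j) f = 0 := by
          intro j
          show eval₂ (algebraMap k[X] M) (θ j) f = 0
          rw [← eval_map, hfθ, eval_prod]
          exact Finset.prod_eq_zero (Finset.mem_univ j) (by simp)
        have hbij : Function.Bijective (fun j : Fin n =>
            (⟨θ j, hr j⟩ : {x : M // eval₂ (big k k' K' M) x f = 0})) := by
          refine ⟨fun a b h => hθ (congrArg Subtype.val h), ?_⟩
          rintro ⟨x, hx⟩
          have hx' : (f.map (algebraMap k[X] M)).eval x = 0 := by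
            rw [eval_map]
            exact hx
          rw [hfθ, eval_prod, Finset.prod_eq_zero_iff] at hx'
          obtain ⟨j, -, hj⟩ := hx'
          rw [eval_sub, eval_X, eval_C, sub_eq_zero] at hj
          exact ⟨j, Subtype.ext hj.symm⟩
        set ε := Equiv.ofBijective _ hbij with hε
        obtain ⟨τ, hτ⟩ := hFull k' K' M (ε.symm.trans (σ.trans ε))
        have hτθ : ∀ j, τ (θ j) = θ (σ j) := by
          intro j
          have h2 := hτ (ε j)
          rw [Equiv.trans_apply, Equiv.symm_apply_apply, Equiv.trans_apply] at h2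
          exact h2
        have hτR : ∀ r : k[X], τ (algebraMap k[X] M r) = algebraMap k[X] M r := by
          intro r
          rw [hcomp]
          exact τ.commutes _
        have hτy : τ (y κ₀) = y κ := by
          rw [hσ, hye κ₀, hye, map_sum]
          refine Finset.sum_congr rfl fun i _ => ?_
          rw [map_sum]
          refine Finset.sum_congr rfl fun j _ => ?_
          rw [map_mul, hτR, ← ap_map (τ : M →+* M) σ hτθ i, coeff_map]
          rfl
        rw [Multiset.mem_toFinset, mem_roots_map (minpoly.ne_zero hyint), ← hτy]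
        have h3 := congrArg τ (minpoly.aeval K' (y κ₀))
        rw [map_zero, ← aeval_algHom_apply τ] at h3
        exact h3
      have h2 := Finset.card_le_card h1
      rw [Finset.card_image_of_injOn hy] at h2
      refine h2.trans ((Multiset.toFinset_card_le _).trans ((card_roots' _).trans ?_))
      exact natDegree_map_le
    have heq : H.map ψ = minpoly K' (y κ₀) := by
      refine eq_of_monic_of_dvd_of_natDegree_le (minpoly.monic hyint) (hHm.map ψ)
        (minpoly.dvd _ _ hHψ) ?_
      rw [hHm.natDegree_map, hHd]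
      exact hge
    rw [(hHm.map _).irreducible_iff_irreducible_map_fraction_map (K := K'), Polynomial.map_map]
    show Irreducible (H.map ψ)
    rw [heq]
    exact minpoly.irreducible hyint
  have hc1 := congr1 hinj hfθ hHm hy hH hA
  have hc2 := congr2 hinj hHm hy hH hye hA
  refine ⟨H, D, A, ⟨hHm, by rw [hHd]; exact hpos, hD, hdisc, ?_⟩, ?_⟩
  · intro k'' _ _ _ _
    exact Run7.h875.TS.irr_all k' hirr k''
  · intro W _ φ hφ
    exact bij hfm hfd hHm hHd hdisc hED hEid hc1 hc2 W φ hφ

end Run7.h886.TG
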