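import Pool.Agent.Run7.h784.TG.StmA
import Pool.Agent.N615.JB.Alg0

/-!
# Project TG: `nv` is the resultant

Parts of `Run7/h784/TG/Nv.lean` (helper784), with lighter imports; helper886.
-/

set_option autoImplicit false
set_option linter.all false

open Polynomial
open scoped Classical

namespace Run7.h886.TG

open Run7.h784.TG (nv zp)

section nv

variable {W : Type} [Field W]

theorem nv_eq (a p : W[X]) (ha : a.Monic) (n : ℕ) (hn : p.natDegree ≤ n) :
    nv a p = resultant a p a.natDegree n := by
  apply (algebraMap W (AlgebraicClosure W)).injective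
  have h0 : algebraMap W (AlgebraicClosure W) (nv a p) = _ :=
    Pool.Agent.N615.JB.nrm0 W (AlgebraicClosure W) a p ha (IsAlgClosed.splits _)
  rw [h0, ← resultant_map_map]
  have h1 := resultant_eq_prod_eval (a.map (algebraMap W (AlgebraicClosure W)))
    (p.map (algebraMap W (AlgebraicClosure W))) n (by rw [natDegree_map]; exact hn)
    (IsAlgClosed.splits _)
  rw [natDegree_map, (ha.map _).leadingCoeff, one_pow, one_mul] at h1
  rw [h1]
  congr 1
  refine Multiset.map_congr rfl fun e _ => ?_
  rw [eval_map, ← aeval_def]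

end nv

section zp

variable {k W : Type} [Field k] [Field W]

theorem zp_natDegree (φ : k[X] →+* W) {m : ℕ} (z : Fin (m + 1) → k[X]) :
    (zp φ z).natDegree ≤ m := by
  unfold zp
  refine natDegree_sum_le_of_forall_le _ _ fun i _ => ?_
  refine (natDegree_C_mul_X_pow_le _ _).trans ?_
  omega

/-- The polynomial over `k[X]` with the coefficients `z`. -/
noncomputable def zq {m : ℕ} (z : Fin m → k[X]) : k[X][X] := ∑ i, C (z i) * X ^ (i : ℕ)

theorem zq_bound {m : ℕ} (z : Fin m → k[X]) (N : ℕ) (hz : ∀ i, (z i).natDegree ≤ N) (j : ℕ) :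
    ((zq z).coeff j).natDegree ≤ N := by
  unfold zq
  rw [finset_sum_coeff]
  refine natDegree_sum_le_of_forall_le _ _ fun i _ => ?_
  rw [coeff_C_mul_X_pow]
  split_ifs
  · exact hz i
  · simp

theorem zq_map (φ : k[X] →+* W) {m : ℕ} (z : Fin m → k[X]) : (zq z).map φ = zp φ z := by
  unfold zq zp
  rw [Polynomial.map_sum]
  refine Finset.sum_congr rfl fun i _ => ?_
  rw [Polynomial.map_mul, map_C, Polynomial.map_pow, map_X]

/-- A bound for the degrees of the coefficients. -/
noncomputable def cdg (f : k[X][X]) : ℕ := f.support.sup fun i => (f.coeff i).natDegree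

theorem le_cdg (f : k[X][X]) (i : ℕ) : (f.coeff i).natDegree ≤ cdg f := by
  by_cases h : i ∈ f.support
  · exact Finset.le_sup (f := fun i => (f.coeff i).natDegree) h
  · rw [notMem_support_iff.1 h]
    simp

end zp

end Run7.h886.TG
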