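import Pool.Agent.Run7.h886.TG.WA
import Pool.Agent.Run7.h886.TG.MODEL
import Pool.Agent.Run7.h688.TG.NSQ

/-!
# Weil estimates for the curves of factorisations

Project TG (helper784), piece W, helper886.
-/

set_option autoImplicit false
set_option linter.all false

open Polynomial
open scoped Classical

namespace Run7.h886.TG

open Run7.h784.TG (FacR mdl IsMd evt nv zp Fm Full P_W P_NSQ2 P_NSQ P_MODEL)
open Run7.h875.TS (chi cd IsPC GSq ev2)
open Run7.h437.TS (abs_chi_le chi_mul chi_sq one_le_sqrt_cd ev2_C)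
open Pool.Agent.N352.PJ (IsGen Crd dsc)

/-- The estimates, with the constant `C₀`. -/
def Est {k : Type} [Field k] (g : ℕ) (f : k[X][X]) {l : ℕ} (c : Fin l → ℕ) (C₀ : ℕ) : Prop :=
  (∀ (F : Type) [Field F] [Fintype F] [Algebra k F],
    |(∑ t : F, ((FacR (evt (k := k) t) f c).ncard : ℝ)) - cd F| ≤ C₀ * √(cd F)) ∧
  (∀ b : k[X], ((b = dsc g f ∧ ∃ i, 2 ≤ c i) ∨
    (Squarefree b ∧ IsCoprime b (dsc g f) ∧ 0 < b.natDegree)) →
    ∀ (F : Type) [Field F] [Fintype F] [Algebra k F],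
      |∑ t : F, chi (aeval t b) * ((FacR (evt (k := k) t) f c).ncard : ℝ)| ≤
        C₀ * (1 + b.natDegree) * √(cd F)) ∧
  ∀ B : Finset (Fin l), B.Nonempty → Even (∑ i ∈ B, c i) →
  ∀ (K L : Type) [Field K] [Algebra k[X] K] [IsFractionRing k[X] K]
    [Field L] [Algebra K L] [Algebra k[X] L] [IsScalarTower k[X] K L] (θ : L), IsGen g K f θ →
  ∀ (α : L) (z : Fin (2 * g + 1) → k[X]) (N' : ℕ), α ≠ 0 → IsSquare (Algebra.norm K α) →
    ¬ IsSquare α → Crd g θ z α → (∀ i, (z i).natDegree ≤ N') → ∀ b : k[X], b ≠ 0 →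
    ∀ (F : Type) [Field F] [Fintype F] [Algebra k F],
      |∑ t : F, chi (aeval t b) * ∑ᶠ a ∈ FacR (evt (k := k) t) f c,
        chi (nv (∏ i ∈ B, a i) (zp (evt (k := k) t) z))| ≤
          C₀ * (1 + N' + b.natDegree) * √(cd F)

theorem est_one (hNSQ2 : P_NSQ2) {k : Type} [Field k] [Finite k] {g N : ℕ} {r : k[X]} {f : k[X][X]}
    (hF : Fm g N r f) (hFull : Full f) {l : ℕ} (c : Fin l → ℕ) (hc : ∀ i, 1 ≤ c i)
    (hs : ∑ i, c i = 2 * g + 1) : ∃ C₀ : ℕ, Est g f c C₀ := by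
  have hf : f.Monic := hF.fam.ht.mon
  obtain ⟨H, D, A, hM⟩ := T_MODEL k g N r f hF hFull l c hc hs
  obtain ⟨C₁, hC1, hC2⟩ := Run7.h984.TS.double k H D hF.two hM.pc
  choose d₀ E₀ hG using fun B => G0_bound c D A B g
  choose E hE using fun B : Finset (Fin l) => mod_bound H (d₀ B)
  set C₂ : ℕ := ((2 ^ f.natDegree) ^ l + H.natDegree) * D.natDegree with hC₂
  set C₃ : ℕ := ∑ B : Finset (Fin l), (1 + E₀ B + E B) with hC₃
  have habs : ∀ (x y c d s : ℝ), |x - y| ≤ c → |y| ≤ d * s → 0 ≤ c → 1 ≤ s → |x| ≤ (c + d) * s := by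
    intro x y c d s h1 h2 h3 h4
    have h5 : |x| ≤ |x - y| + |y| := by
      calc |x| = |(x - y) + y| := by ring_nf
        _ ≤ _ := abs_add_le _ _
    nlinarith
  have hfin : ∀ {F : Type} [Field F] [Fintype F] [Algebra k F] (t : F),
      (FacR (evt (k := k) t) f c).Finite := fun t => (Run7.h973.TG.facR_bound _ f hf c).1
  refine ⟨C₂ + C₁ * (1 + C₃), ?_, ?_, ?_⟩
  · intro F _ _ _
    have h1 := compare hf hM (F := F) (fun _ => 1) (fun _ _ => 1) (fun _ _ => 1) (by simp)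
      (by simp) (by simp) (by simp)
    have h3 := hC1 F
    have h4 : (∑ t : F, (1 : ℝ) * ∑ᶠ a ∈ FacR (evt (k := k) t) f c, (1 : ℝ)) =
        ∑ t : F, ((FacR (evt (k := k) t) f c).ncard : ℝ) := by
      refine Finset.sum_congr rfl fun t _ => ?_
      rw [one_mul, ncard_eq_finsum (hfin t)]
    have h5 : ∑ z ∈ Finset.univ.filter (fun z : F × F => ev2 z.1 z.2 H = 0), (1 : ℝ) =
        ((Finset.univ.filter (fun z : F × F => ev2 z.1 z.2 H = 0)).card : ℝ) := by simp
    rw [h4, h5] at h1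
    have h6 : |((∑ t : F, ((FacR (evt (k := k) t) f c).ncard : ℝ)) - cd F) -
        (((Finset.univ.filter (fun z : F × F => ev2 z.1 z.2 H = 0)).card : ℝ) - cd F)| ≤ C₂ := by
      rw [hC₂]
      push_cast
      convert h1 using 2
      ring
    refine (habs _ _ _ _ _ h6 h3 (by positivity) one_le_sqrt_cd).trans ?_
    have : (0 : ℝ) ≤ √(cd F) := Real.sqrt_nonneg _
    push_cast
    have h7 : (0 : ℝ) ≤ C₁ * C₃ := by positivity
    nlinarith
  · intro b hb F _ _ _
    have h1 := compare hf hM (F := F) (fun t => chi (aeval t b)) (fun _ _ => 1)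
      (fun t y => chi (ev2 t y (C b))) (fun t => abs_chi_le _)
      (by simp) (fun t y => abs_chi_le _) (fun t y _ _ => by rw [ev2_C]; simp)
    have h3 := hC2 (C b) b.natDegree (by simp) (fun i => by
      rw [coeff_C]; split_ifs <;> simp)
      (fun k' _ _ _ _ => hNSQ2 k g N r f hF hFull l c hc hs H D A hM b hb k') F
    have h4 : (∑ t : F, chi (aeval t b) * ∑ᶠ a ∈ FacR (evt (k := k) t) f c, (1 : ℝ)) =
        ∑ t : F, chi (aeval t b) * ((FacR (evt (k := k) t) f c).ncard : ℝ) := by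
      refine Finset.sum_congr rfl fun t _ => ?_
      rw [ncard_eq_finsum (hfin t)]
    rw [h4] at h1
    have h6 : |(∑ t : F, chi (aeval t b) * ((FacR (evt (k := k) t) f c).ncard : ℝ)) -
        ∑ z ∈ Finset.univ.filter (fun z : F × F => ev2 z.1 z.2 H = 0),
          chi (ev2 z.1 z.2 (C b))| ≤ C₂ := by
      rw [hC₂]
      push_cast
      exact h1
    refine (habs _ _ _ _ _ h6 h3 (by positivity) one_le_sqrt_cd).trans ?_
    have h8 : (0 : ℝ) ≤ √(cd F) := Real.sqrt_nonneg _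
    refine mul_le_mul_of_nonneg_right ?_ h8
    push_cast
    have h7 : (0 : ℝ) ≤ C₁ * C₃ := by positivity
    have h9 : (0 : ℝ) ≤ C₂ := by positivity
    have h10 : (0 : ℝ) ≤ (b.natDegree : ℝ) := by positivity
    have h11 := mul_nonneg h9 h10
    have h12 := mul_nonneg h7 h10
    nlinarith
  · intro B hB hev K L _ _ _ _ _ _ _ θ hgen α z N' hα hsq hns hcrd hz b hb F _ _ _
    set G : k[X][X] := (C b * G0 c D A B z) %ₘ H with hGdef
    obtain ⟨hG1, hG2⟩ := hG B z N' hz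
    have hGev : ∀ (W : Type) [Field W] (φ : k[X] →+* W) (y : W), φ D ≠ 0 → eval₂ φ y H = 0 →
        eval₂ φ y G = φ b * φ D ^ (2 * (B.card * g)) *
          nv (∏ i ∈ B, mdl φ c D A y i) (zp φ z) := by
      intro W _ φ y hD hy
      rw [hGdef, eval₂_modByMonic_eq_self_of_root hy, eval₂_mul, eval₂_C,
        G0_eval c D A B z φ hD y, mul_assoc]
    have h1 := compare hf hM (F := F) (fun t => chi (aeval t b))
      (fun t a => chi (nv (∏ i ∈ B, a i) (zp (evt (k := k) t) z)))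
      (fun t y => chi (ev2 t y G)) (fun t => abs_chi_le _)
      (fun t a => abs_chi_le _) (fun t y => abs_chi_le _) (fun t y ht hy => by
        have h2 : ev2 t y G = _ := hGev F (evt (k := k) t) y ht hy
        have ht' : (evt (k := k) t D) ^ (B.card * g) ≠ 0 := pow_ne_zero _ ht
        rw [h2, chi_mul, chi_mul, mul_comm 2 (B.card * g), pow_mul, chi_sq ht', mul_one]
        rfl)
    have hgd : G.natDegree ≤ 2 * H.natDegree := by
      have h2 := natDegree_modByMonic_le (C b * G0 c D A B z) hM.pc.monic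
      rw [← hGdef] at h2
      omega
    have hgc : ∀ i, (G.coeff i).natDegree ≤ C₃ * (1 + N' + b.natDegree) := by
      intro i
      have h2 := hE B (C b * G0 c D A B z) (b.natDegree + E₀ B * (1 + N'))
        ((natDegree_C_mul_le _ _).trans hG1) (fun j => by
          rw [coeff_C_mul]
          exact natDegree_mul_le.trans (add_le_add le_rfl (hG2 j))) i
      refine h2.trans ?_
      have h5 : 1 + E₀ B + E B ≤ C₃ :=
        Finset.single_le_sum (f := fun B => 1 + E₀ B + E B) (fun _ _ => Nat.zero_le _)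
          (Finset.mem_univ B)
      calc b.natDegree + E₀ B * (1 + N') + E B ≤ (1 + E₀ B + E B) * (1 + N' + b.natDegree) := by
            nlinarith [Nat.zero_le (E₀ B * b.natDegree), Nat.zero_le (E B * N'),
              Nat.zero_le (E B * b.natDegree)]
        _ ≤ _ := Nat.mul_le_mul_right _ h5
    have h3 := hC2 G (C₃ * (1 + N' + b.natDegree)) hgd hgc
      (fun k' _ _ _ _ => Run7.h688.TG.T_NSQ k g N r f hF hFull l c hc hs H D A hM B hB hev K L θ
        hgen α z hα hsq hns hcrd b G (B.card * g) hb hGev k') F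
    have h6 : |(∑ t : F, chi (aeval t b) * ∑ᶠ a ∈ FacR (evt (k := k) t) f c,
          chi (nv (∏ i ∈ B, a i) (zp (evt (k := k) t) z))) -
        ∑ z' ∈ Finset.univ.filter (fun z : F × F => ev2 z.1 z.2 H = 0),
          chi (ev2 z'.1 z'.2 G)| ≤ C₂ := by
      rw [hC₂]
      push_cast
      exact h1
    refine (habs _ _ _ _ _ h6 h3 (by positivity) one_le_sqrt_cd).trans ?_
    have h8 : (0 : ℝ) ≤ √(cd F) := Real.sqrt_nonneg _
    refine mul_le_mul_of_nonneg_right ?_ h8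
    push_cast
    have h9 : (0 : ℝ) ≤ C₂ := by positivity
    have h10 : (0 : ℝ) ≤ (C₁ : ℝ) := by positivity
    have h11 : (0 : ℝ) ≤ (N' : ℝ) + b.natDegree := by positivity
    have h12 := mul_nonneg h9 h11
    have h13 := mul_nonneg h10 h11
    nlinarith

theorem Est.mono {k : Type} [Field k] {g : ℕ} {f : k[X][X]} {l : ℕ} {c : Fin l → ℕ} {C₀ C₁ : ℕ}
    (h : Est g f c C₀) (hC : C₀ ≤ C₁) : Est g f c C₁ := by
  have hC' : (C₀ : ℝ) ≤ C₁ := by exact_mod_cast hC
  obtain ⟨h1, h2, h3⟩ := h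
  refine ⟨?_, ?_, ?_⟩
  · intro F _ _ _
    refine (h1 F).trans ?_
    gcongr
  · intro b hb F _ _ _
    refine (h2 b hb F).trans ?_
    gcongr
  · intro B hB hev K L _ _ _ _ _ _ _ θ hgen α z N' hα hsq hns hcrd hz b hb F _ _ _
    refine (h3 B hB hev K L θ hgen α z N' hα hsq hns hcrd hz b hb F).trans ?_
    gcongr

theorem T_W (hNSQ2 : P_NSQ2) : P_W := by
  intro k _ _ g N r f hF hFull
  have h : ∀ (l : ℕ) (c : Fin l → ℕ), ∃ C₀ : ℕ, (∀ i, 1 ≤ c i) → ∑ i, c i = 2 * g + 1 →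
      Est g f c C₀ := by
    intro l c
    by_cases h1 : (∀ i, 1 ≤ c i) ∧ ∑ i, c i = 2 * g + 1
    · obtain ⟨C₀, hC₀⟩ := est_one hNSQ2 hF hFull c h1.1 h1.2
      exact ⟨C₀, fun _ _ => hC₀⟩
    · exact ⟨0, fun h2 h3 => absurd ⟨h2, h3⟩ h1⟩
  choose C₀ hC₀ using h
  refine ⟨∑ l ∈ Finset.range (2 * g + 2), ∑ c ∈ Run7.h784.TG.cmp (2 * g + 1) l, C₀ l c, ?_⟩
  intro l c hc hs
  have hl : l ≤ 2 * g + 1 := by
    rw [← hs]
    calc l = ∑ i : Fin l, 1 := by simp
      _ ≤ _ := Finset.sum_le_sum fun i _ => hc i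
  have hmem : c ∈ Run7.h784.TG.cmp (2 * g + 1) l := by
    unfold Run7.h784.TG.cmp
    rw [Finset.mem_filter, Fintype.mem_piFinset]
    refine ⟨fun i => ?_, hs⟩
    rw [Finset.mem_Icc]
    refine ⟨hc i, ?_⟩
    rw [← hs]
    exact Finset.single_le_sum (f := c) (fun _ _ => Nat.zero_le _) (Finset.mem_univ i)
  have hle : C₀ l c ≤ ∑ l ∈ Finset.range (2 * g + 2), ∑ c ∈ Run7.h784.TG.cmp (2 * g + 1) l, C₀ l c := by
    have h1 : C₀ l c ≤ ∑ c ∈ Run7.h784.TG.cmp (2 * g + 1) l, C₀ l c :=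
      Finset.single_le_sum (f := fun c => C₀ l c) (fun _ _ => Nat.zero_le _) hmem
    refine h1.trans ?_
    exact Finset.single_le_sum (f := fun l => ∑ c ∈ Run7.h784.TG.cmp (2 * g + 1) l, C₀ l c)
      (fun _ _ => Nat.zero_le _) (Finset.mem_range.2 (by omega))
  exact (hC₀ l c hc hs).mono hle

end Run7.h886.TG
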