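import Mathlib

/-!
# Plane models of the curves of factorisations: colourings of the roots

Project TG (helper784), piece MODEL, helper886.
-/

set_option autoImplicit false
set_option linter.all false

open Polynomial
open scoped Classical

namespace Run7.h886.TG

/-- The colourings with `c i` elements of colour `i`. -/
noncomputable def Col (n : ℕ) {l : ℕ} (c : Fin l → ℕ) : Finset (Fin n → Fin l) :=
  Finset.univ.filter fun κ => ∀ i, (Finset.univ.filter fun j => κ j = i).card = c i

/-- The factor of colour `i`. -/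
noncomputable def ap {n l : ℕ} {W : Type} [Field W] (θ : Fin n → W) (κ : Fin n → Fin l)
    (i : Fin l) : W[X] :=
  ∏ j ∈ Finset.univ.filter (fun j => κ j = i), (X - C (θ j))

section basic

variable {n l : ℕ} {W : Type} [Field W] {θ : Fin n → W} {κ κ' : Fin n → Fin l} {c : Fin l → ℕ}

theorem mem_Col : κ ∈ Col n c ↔ ∀ i, (Finset.univ.filter fun j => κ j = i).card = c i := by
  unfold Col
  rw [Finset.mem_filter]
  simp

theorem ap_monic (i : Fin l) : (ap θ κ i).Monic :=
  monic_prod_of_monic _ _ fun j _ => monic_X_sub_C _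

theorem ap_deg (i : Fin l) :
    (ap θ κ i).natDegree = (Finset.univ.filter fun j => κ j = i).card := by
  unfold ap
  rw [natDegree_prod_of_monic _ _ fun j _ => monic_X_sub_C _]
  simp

theorem ap_degC (h : κ ∈ Col n c) (i : Fin l) : (ap θ κ i).natDegree = c i := by
  rw [ap_deg, mem_Col.1 h i]

theorem ap_prod : ∏ i, ap θ κ i = ∏ j, (X - C (θ j)) := by
  unfold ap
  exact Finset.prod_fiberwise _ _ _

theorem ap_eval (hθ : Function.Injective θ) (i : Fin l) (j : Fin n) :
    (ap θ κ i).eval (θ j) = 0 ↔ κ j = i := by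
  unfold ap
  rw [eval_prod, Finset.prod_eq_zero_iff]
  constructor
  · rintro ⟨j', hj', h⟩
    rw [eval_sub, eval_X, eval_C, sub_eq_zero] at h
    rw [hθ h]
    exact (Finset.mem_filter.1 hj').2
  · intro h
    exact ⟨j, Finset.mem_filter.2 ⟨Finset.mem_univ _, h⟩, by simp⟩

theorem ap_inj (hθ : Function.Injective θ) (h : ∀ i, ap θ κ i = ap θ κ' i) : κ = κ' := by
  funext j
  have h1 : (ap θ κ (κ j)).eval (θ j) = 0 := (ap_eval hθ _ _).2 rfl
  rw [h, ap_eval hθ] at h1
  exact h1.symm

theorem act_mem (π : Equiv.Perm (Fin n)) : κ ∘ π.symm ∈ Col n c ↔ κ ∈ Col n c := by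
  rw [mem_Col, mem_Col]
  refine forall_congr' fun i => ?_
  have h : (Finset.univ.filter fun j => (κ ∘ π.symm) j = i).card =
      (Finset.univ.filter fun j => κ j = i).card := by
    refine Finset.card_equiv π.symm fun j => ?_
    simp
  rw [h]

theorem ap_map {W' : Type} [Field W'] (τ : W →+* W') {θ' : Fin n → W'} (π : Equiv.Perm (Fin n))
    (h : ∀ j, τ (θ j) = θ' (π j)) (i : Fin l) :
    (ap θ κ i).map τ = ap θ' (κ ∘ π.symm) i := by
  unfold ap
  rw [Polynomial.map_prod]
  refine Finset.prod_equiv π (fun j => by simp) fun j _ => ?_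
  rw [Polynomial.map_sub, map_X, map_C, h]

theorem perm_of {W' : Type} [Field W'] (τ : W →+* W') {θ' : Fin n → W'}
    (hθ : Function.Injective θ) (hθ' : Function.Injective θ')
    (h : (∏ j, (X - C (θ j)) : W[X]).map τ = ∏ j, (X - C (θ' j))) :
    ∃ π : Equiv.Perm (Fin n), ∀ j, τ (θ j) = θ' (π j) := by
  have h1 : ∀ j, ∃ j', τ (θ j) = θ' j' := by
    intro j
    have h2 : (∏ j, (X - C (θ' j)) : W'[X]).eval (τ (θ j)) = 0 := by
      rw [← h, eval_map, eval₂_at_apply, eval_prod, Finset.prod_eq_zero (Finset.mem_univ j) (by simp),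
        map_zero]
    rw [eval_prod, Finset.prod_eq_zero_iff] at h2
    obtain ⟨j', -, hj'⟩ := h2
    rw [eval_sub, eval_X, eval_C, sub_eq_zero] at hj'
    exact ⟨j', hj'⟩
  choose p hp using h1
  have hinj : Function.Injective p := by
    intro a b hab
    apply hθ
    apply τ.injective
    rw [hp, hp, hab]
  exact ⟨Equiv.ofBijective p (Finite.injective_iff_bijective.1 hinj), fun j => hp j⟩

theorem Col_nonempty (h : ∑ i, c i = n) : (Col n c).Nonempty := by
  subst h
  refine ⟨fun j => (finSigmaFinEquiv.symm j).1, ?_⟩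
  rw [mem_Col]
  intro i
  have h1 : (Finset.univ.filter fun j => ((finSigmaFinEquiv (n := c)).symm j).1 = i).card =
      (Finset.univ : Finset (Fin (c i))).card := by
    symm
    refine Finset.card_bij (fun a _ => finSigmaFinEquiv ⟨i, a⟩) ?_ ?_ ?_
    · intro a _
      simp
    · intro a _ b _ hab
      have h2 := finSigmaFinEquiv.injective hab
      simpa using h2
    · intro j hj
      rw [Finset.mem_filter] at hj
      obtain ⟨⟨i', a⟩, rfl⟩ := (finSigmaFinEquiv (n := c)).surjective j
      rw [Equiv.symm_apply_apply] at hj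
      obtain rfl : i' = i := hj.2
      exact ⟨a, Finset.mem_univ _, rfl⟩
  rw [h1, Finset.card_univ, Fintype.card_fin]

/-- The polynomial with the given coefficients. -/
theorem ap_sum (h : κ ∈ Col n c) (i : Fin l) :
    ap θ κ i = X ^ (c i) + ∑ j ∈ Finset.range (c i), C ((ap θ κ i).coeff j) * X ^ j := by
  conv_lhs => rw [(ap_monic (θ := θ) (κ := κ) i).as_sum, ap_degC h]

end basic

/-! ### Descent -/

section desc

variable {R K M : Type} [CommRing R] [IsDomain R] [IsIntegrallyClosed R] [Field K] [Algebra R K]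
  [IsFractionRing R K] [Field M] [Algebra R M] [Algebra K M] [IsScalarTower R K M] [Normal K M]

theorem desc (x : M) (hi : IsIntegral R x) (hs : IsSeparable K x) (hf : ∀ τ : M ≃ₐ[K] M, τ x = x) :
    ∃ r : R, algebraMap R M r = x := by
  have hiK : IsIntegral K x := hi.tower_top
  have h1 : (minpoly K x).natDegree = 1 := by
    have hsp : ((minpoly K x).map (algebraMap K M)).Splits := Normal.splits inferInstance x
    have hsep : ((minpoly K x).map (algebraMap K M)).Separable := Polynomial.Separable.map hs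
    have h2 := hsp.natDegree_eq_card_roots
    rw [natDegree_map] at h2
    have h3 : ((minpoly K x).map (algebraMap K M)).roots.toFinset ⊆ {x} := by
      intro z hz
      rw [Multiset.mem_toFinset, mem_roots_map (minpoly.ne_zero hiK), ← aeval_def] at hz
      obtain ⟨σ, hσ⟩ := minpoly.exists_algEquiv_of_root' hiK.isAlgebraic hz
      rw [hf] at hσ
      rw [Finset.mem_singleton, hσ]
    have h4 := Finset.card_le_card h3
    rw [Multiset.toFinset_card_of_nodup (nodup_roots hsep), ← h2, Finset.card_singleton] at h4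
    have h5 := minpoly.natDegree_pos hiK
    omega
  rw [minpoly.natDegree_eq_one_iff] at h1
  obtain ⟨q, rfl⟩ := h1
  have h6 : IsIntegral R q := (isIntegral_algebraMap_iff (algebraMap K M).injective).1 hi
  obtain ⟨r, rfl⟩ := IsIntegrallyClosed.isIntegral_iff.1 h6
  exact ⟨r, IsScalarTower.algebraMap_apply R K M r⟩

variable (R K M) in
/-- The integral and separable elements. -/
noncomputable def Tsub : Subring M :=
  (integralClosure R M).toSubring ⊓ (separableClosure K M).toSubring

theorem mem_Tsub {x : M} : x ∈ Tsub R K M ↔ IsIntegral R x ∧ IsSeparable K x := by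
  unfold Tsub
  rw [Subring.mem_inf]
  refine and_congr ?_ ?_
  · exact Iff.rfl
  · exact mem_separableClosure_iff

theorem alg_mem_Tsub (r : R) : algebraMap R M r ∈ Tsub R K M := by
  rw [mem_Tsub]
  refine ⟨isIntegral_algebraMap, ?_⟩
  rw [IsScalarTower.algebraMap_apply R K M]
  exact isSeparable_algebraMap _

theorem desc_poly (P : M[X]) (hP : P ∈ liftsRing (Tsub R K M).subtype)
    (hf : ∀ τ : M ≃ₐ[K] M, P.map (τ : M →+* M) = P) :
    ∃ H : R[X], H.map (algebraMap R M) = P := by
  rw [← lifts_iff_liftsRing, lifts_iff_coeff_lifts] at hP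
  have h1 : P ∈ lifts (algebraMap R M) := by
    rw [lifts_iff_coeff_lifts]
    intro m
    obtain ⟨x, hx⟩ := hP m
    have h2 := mem_Tsub.1 x.2
    refine desc (R := R) (K := K) _ ?_ ?_ ?_
    · rw [← hx]
      exact h2.1
    · rw [← hx]
      exact h2.2
    · intro τ
      conv_rhs => rw [← hf τ, coeff_map]
      rfl
  exact (mem_lifts _).1 h1

theorem C_mem_lr {x : M} (hx : x ∈ Tsub R K M) : C x ∈ liftsRing (Tsub R K M).subtype :=
  (lifts_iff_liftsRing _ _).1 (C'_mem_lifts ⟨⟨x, hx⟩, rfl⟩)

theorem X_mem_lr : (X : M[X]) ∈ liftsRing (Tsub R K M).subtype :=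
  (lifts_iff_liftsRing _ _).1 (X_mem_lifts _)

theorem coeff_mem_T {P : M[X]} (hP : P ∈ liftsRing (Tsub R K M).subtype) (m : ℕ) :
    P.coeff m ∈ Tsub R K M := by
  rw [← lifts_iff_liftsRing, lifts_iff_coeff_lifts] at hP
  obtain ⟨x, hx⟩ := hP m
  rw [← hx]
  exact x.2

end desc

end Run7.h886.TG
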