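import Pool.Agent.Run7.h886.TG.MdA
import Pool.Agent.Run7.h875.TS.Mod4

/-!
# Plane models of the curves of factorisations: the construction

Project TG (helper784), piece MODEL, helper886.
-/

set_option autoImplicit false
set_option linter.all false

open Polynomial
open scoped Classical

namespace Run7.h886.TG

section partA

variable {R K M : Type} [CommRing R] [IsDomain R] [IsIntegrallyClosed R] [Infinite R] [Field K]
  [Algebra R K] [IsFractionRing R K] [Field M] [Algebra R M] [Algebra K M] [IsScalarTower R K M]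
  [Normal K M]

/-- Separating weights. -/
theorem exists_wt {R M : Type} [CommRing R] [IsDomain R] [Infinite R] [Field M] [Algebra R M]
    (hR : Function.Injective (algebraMap R M)) {n l : ℕ} {θ : Fin n → M}
    (hθ : Function.Injective θ) (c : Fin l → ℕ) :
    ∃ e : Fin l → ℕ → R, Set.InjOn (fun κ : Fin n → Fin l => ∑ i, ∑ j ∈ Finset.range (c i),
      algebraMap R M (e i j) * (ap θ κ i).coeff j) (Col n c : Set (Fin n → Fin l)) := by
  set J : Finset (Σ _ : Fin l, ℕ) := Finset.univ.sigma fun i => Finset.range (c i) with hJ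
  set V : Set ((Σ _ : Fin l, ℕ) → M) :=
    (fun p : (Fin n → Fin l) × (Fin n → Fin l) => fun x : (Σ _ : Fin l, ℕ) =>
      (ap θ p.1 x.1).coeff x.2 - (ap θ p.2 x.1).coeff x.2) ''
      {p | p.1 ∈ Col n c ∧ p.2 ∈ Col n c ∧ p.1 ≠ p.2} with hV
  obtain ⟨μ, hμ⟩ := Run7.h875.TS.exists_mu (R := R) (Ω := M) hR J
    (fun x => Nat.pair (x.1 : ℕ) x.2) (by
      rintro ⟨i, j⟩ - ⟨i', j'⟩ - h
      have h1 := Nat.pair_eq_pair.1 h
      obtain ⟨h2, h3⟩ := h1
      simp only at h2 h3
      obtain rfl := Fin.ext h2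
      rw [h3]) V ((Set.toFinite _).image _) (by
      rintro _ ⟨⟨κ, κ'⟩, ⟨h1, h2, h3⟩, rfl⟩
      by_contra hcon
      push Not at hcon
      apply h3
      apply ap_inj hθ
      intro i
      rw [ap_sum h1, ap_sum h2]
      congr 1
      refine Finset.sum_congr rfl fun j hj => ?_
      have h4 := hcon ⟨i, j⟩ (by
        rw [hJ, Finset.mem_sigma]
        exact ⟨Finset.mem_univ _, hj⟩)
      simp only at h4
      rw [sub_eq_zero.1 h4])
  refine ⟨fun i j => μ ^ Nat.pair (i : ℕ) j, ?_⟩
  intro κ hκ κ' hκ' h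
  by_contra hne
  refine hμ _ ⟨(κ, κ'), ⟨hκ, hκ', hne⟩, rfl⟩ ?_
  rw [hJ, Finset.sum_sigma]
  simp only [mul_sub]
  simp only [Finset.sum_sub_distrib]
  simp only at h
  rw [h, sub_self]

theorem dvd_of {R M ι : Type} [CommRing R] [IsDomain R] [Field M] [Algebra R M]
    (hR : Function.Injective (algebraMap R M)) {H G : R[X]} {s : Finset ι} {y : ι → M}
    (hm : H.Monic) (hy : Set.InjOn y (s : Set ι))
    (hH : H.map (algebraMap R M) = ∏ κ ∈ s, (X - C (y κ))) (h : ∀ κ ∈ s, aeval (y κ) G = 0) :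
    H ∣ G := by
  rw [← map_dvd_map _ hR hm, hH]
  refine Finset.prod_dvd_of_coprime ?_ fun κ hκ => ?_
  · intro a ha b hb hab
    refine isCoprime_X_sub_C_of_isUnit_sub ?_
    rw [isUnit_iff_ne_zero, sub_ne_zero]
    exact fun h => hab (hy ha hb h)
  · rw [dvd_iff_isRoot, IsRoot, eval_map, ← aeval_def, h κ hκ]

theorem partA (hR : Function.Injective (algebraMap R M)) {n l : ℕ} {θ : Fin n → M}
    (hθ : Function.Injective θ) (f : R[X]) (hfm : f.Monic)
    (hsep : (f.map (algebraMap R K)).Separable)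
    (hf : f.map (algebraMap R M) = ∏ j, (X - C (θ j))) (c : Fin l → ℕ) (E : R) (hE : E ≠ 0) :
    ∃ (H : R[X]) (D : R) (A : Fin l → ℕ → R[X]) (e : Fin l → ℕ → R) (y : (Fin n → Fin l) → M),
      H.Monic ∧ D ≠ 0 ∧ E ∣ D ∧ (∃ A B : R[X], A * H + B * derivative H = C D) ∧
      Set.InjOn y (Col n c : Set (Fin n → Fin l)) ∧
      H.map (algebraMap R M) = ∏ κ ∈ Col n c, (X - C (y κ)) ∧
      (∀ κ, y κ = ∑ i, ∑ j ∈ Finset.range (c i), algebraMap R M (e i j) * (ap θ κ i).coeff j) ∧
      ∀ κ ∈ Col n c, ∀ i j, aeval (y κ) (A i j) = algebraMap R M D * (ap θ κ i).coeff j := by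
  obtain ⟨e, he⟩ := exists_wt (R := R) hR hθ c
  set y : (Fin n → Fin l) → M := fun κ => ∑ i, ∑ j ∈ Finset.range (c i),
      algebraMap R M (e i j) * (ap θ κ i).coeff j with hy
  have hKR : Function.Injective (algebraMap R K) := IsFractionRing.injective _ _
  have hroot : ∀ j, aeval (θ j) f = 0 := by
    intro j
    rw [aeval_def, ← eval_map, hf, eval_prod]
    exact Finset.prod_eq_zero (Finset.mem_univ j) (by simp)
  have hT : ∀ j, θ j ∈ Tsub R K M := by
    intro j
    rw [mem_Tsub]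
    refine ⟨⟨f, hfm, hroot j⟩, ?_⟩
    refine Polynomial.Separable.of_dvd hsep (minpoly.dvd K _ ?_)
    rw [aeval_map_algebraMap]
    exact hroot j
  have hap : ∀ (κ : Fin n → Fin l) i, ap θ κ i ∈ liftsRing (Tsub R K M).subtype := by
    intro κ i
    exact Subring.prod_mem _ fun j _ => sub_mem X_mem_lr (C_mem_lr (hT j))
  have hyT : ∀ κ, y κ ∈ Tsub R K M := by
    intro κ
    exact Subring.sum_mem _ fun i _ => Subring.sum_mem _ fun j _ =>
      Subring.mul_mem _ (alg_mem_Tsub _) (coeff_mem_T (hap κ i) j)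
  set P : Polynomial M := ∏ κ ∈ Col n c, (X - C (y κ)) with hP
  set N : Fin l → ℕ → Polynomial M := fun i j => ∑ κ ∈ Col n c, C ((ap θ κ i).coeff j) *
    ∏ κ' ∈ (Col n c).erase κ, (X - C (y κ')) with hN
  have hPT : P ∈ liftsRing (Tsub R K M).subtype :=
    Subring.prod_mem _ fun κ _ => sub_mem X_mem_lr (C_mem_lr (hyT κ))
  have hNT : ∀ i j, N i j ∈ liftsRing (Tsub R K M).subtype := fun i j =>
    Subring.sum_mem _ fun κ _ => Subring.mul_mem _ (C_mem_lr (coeff_mem_T (hap κ i) j))
      (Subring.prod_mem _ fun κ _ => sub_mem X_mem_lr (C_mem_lr (hyT κ)))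
  -- the action
  have hact : ∀ τ : M ≃ₐ[K] M, ∃ ε : (Fin n → Fin l) ≃ (Fin n → Fin l),
      (∀ κ, ε κ ∈ Col n c ↔ κ ∈ Col n c) ∧ (∀ κ i j, τ ((ap θ κ i).coeff j) = (ap θ (ε κ) i).coeff j) ∧
      ∀ κ, τ (y κ) = y (ε κ) := by
    intro τ
    have hτ : ∀ r : R, τ (algebraMap R M r) = algebraMap R M r := by
      intro r
      rw [IsScalarTower.algebraMap_apply R K M, τ.commutes]
    obtain ⟨π, hπ⟩ := perm_of (τ : M →+* M) hθ hθ (by
      rw [← hf, Polynomial.map_map]
      congr 1
      ext r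
      exact hτ r)
    have h1 : ∀ (κ : Fin n → Fin l) i j, τ ((ap θ κ i).coeff j) =
        (ap θ (κ ∘ π.symm) i : Polynomial M).coeff j := by
      intro κ i j
      rw [← ap_map (τ : M →+* M) π hπ i, coeff_map]
      rfl
    refine ⟨Equiv.arrowCongr π (Equiv.refl _), fun κ => act_mem π, h1, ?_⟩
    intro κ
    rw [hy]
    simp only
    rw [map_sum]
    refine Finset.sum_congr rfl fun i _ => ?_
    rw [map_sum]
    refine Finset.sum_congr rfl fun j _ => ?_
    rw [map_mul, hτ, h1]
    rfl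
  obtain ⟨H, hH⟩ := desc_poly P hPT (by
    intro τ
    obtain ⟨ε, hε1, hε2, hε3⟩ := hact τ
    rw [hP, Polynomial.map_prod]
    refine Finset.prod_equiv ε (fun κ => (hε1 κ).symm) fun κ _ => ?_
    rw [Polynomial.map_sub, map_X, map_C]
    show X - C (τ (y κ)) = _
    rw [hε3])
  have hex : ∀ i j, ∃ G : R[X], G.map (algebraMap R M) = N i j := by
    intro i j
    refine desc_poly (N i j) (hNT i j) ?_
    intro τ
    obtain ⟨ε, hε1, hε2, hε3⟩ := hact τ
    rw [hN]
    simp only
    rw [Polynomial.map_sum]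
    refine Finset.sum_equiv ε (fun κ => (hε1 κ).symm) fun κ _ => ?_
    rw [Polynomial.map_mul, map_C, Polynomial.map_prod]
    congr 1
    · show C (τ _) = _
      rw [hε2]
    · refine Finset.prod_equiv ε (fun κ' => ?_) fun κ' _ => ?_
      · rw [Finset.mem_erase, Finset.mem_erase, hε1, ε.injective.ne_iff]
      · rw [Polynomial.map_sub, map_X, map_C]
        show X - C (τ (y κ')) = _
        rw [hε3]
  choose G hG using hex
  have hHm : H.Monic := by
    apply monic_of_injective hR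
    rw [hH]
    exact monic_prod_of_monic _ _ fun _ _ => monic_X_sub_C _
  have hHs : (H.map (algebraMap R K)).Separable := by
    rw [← Polynomial.separable_map (algebraMap K M), Polynomial.map_map,
      ← IsScalarTower.algebraMap_eq, hH, hP, separable_prod_X_sub_C_iff']
    exact he
  obtain ⟨A₀, B₀, hAB⟩ := hHs
  obtain ⟨D, hD, hcl⟩ := Run7.h875.TS.clear_den (R := R) {A₀, B₀}
  obtain ⟨A₁, hA₁⟩ := hcl A₀ (by simp)
  obtain ⟨B₁, hB₁⟩ := hcl B₀ (by simp)
  have hid : A₁ * H + B₁ * derivative H = C D := by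
    apply Polynomial.map_injective (algebraMap R K) hKR
    rw [Polynomial.map_add, Polynomial.map_mul, Polynomial.map_mul, hA₁, hB₁, map_C, ← derivative_map]
    linear_combination C (algebraMap R K D) * hAB
  have hder : ∀ κ ∈ Col n c, aeval (y κ) (derivative H) =
      (∏ κ' ∈ (Col n c).erase κ, (X - C (y κ')) : Polynomial M).eval (y κ) := by
    intro κ hκ
    rw [aeval_def, ← eval_map, ← derivative_map, hH, hP, ← Finset.mul_prod_erase _ _ hκ,
      derivative_mul, eval_add, eval_mul, eval_mul]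
    simp
  have hH0 : ∀ κ ∈ Col n c, aeval (y κ) H = 0 := by
    intro κ hκ
    rw [aeval_def, ← eval_map, hH, hP, eval_prod]
    exact Finset.prod_eq_zero hκ (by simp)
  refine ⟨H, D * E, fun i j => C E * B₁ * G i j, e, y, hHm, mul_ne_zero hD hE, dvd_mul_left _ _,
    ⟨C E * A₁, C E * B₁, ?_⟩, he, hH, fun κ => rfl, ?_⟩
  · rw [C_mul]
    linear_combination C E * hid
  · intro κ hκ i j
    have h1 : aeval (y κ) (G i j) = (ap θ κ i).coeff j * aeval (y κ) (derivative H) := by
      rw [hder κ hκ, aeval_def, ← eval_map, hG, hN]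
      simp only
      rw [eval_finset_sum, Finset.sum_eq_single κ]
      · rw [eval_mul, eval_C]
      · intro κ' hκ' hne
        rw [eval_mul, eval_prod, Finset.prod_eq_zero (i := κ) (Finset.mem_erase.2 ⟨hne.symm, hκ⟩)
          (by simp), mul_zero]
      · intro h
        exact absurd hκ h
    have h2 := congrArg (aeval (y κ)) hid
    rw [map_add, map_mul, map_mul, hH0 κ hκ, mul_zero, zero_add, aeval_C] at h2
    rw [map_mul, map_mul, aeval_C, h1, map_mul, ← h2]
    ring

end partA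

end Run7.h886.TG
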