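import Pool.Agent.Run7.h886.TG.MdB
import Pool.Agent.Run7.h784.TG.StmA

/-!
# Plane models of the curves of factorisations: the bijection

Project TG (helper784), piece MODEL, helper886.
-/

set_option autoImplicit false
set_option linter.all false

open Polynomial
open scoped Classical

namespace Run7.h886.TG

open Run7.h784.TG (FacR mdl)

/-- Indexing the roots. -/
theorem exists_idx {W : Type} [Field W] (p : W[X]) (hm : p.Monic) (hsp : p.Splits)
    (hsep : p.Separable) {n : ℕ} (hn : p.natDegree = n) :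
    ∃ θ : Fin n → W, Function.Injective θ ∧ p = ∏ j, (X - C (θ j)) := by
  have h1 : p.roots.toFinset.card = n := by
    rw [Multiset.toFinset_card_of_nodup (nodup_roots hsep), ← hsp.natDegree_eq_card_roots, hn]
  set ε := p.roots.toFinset.equivFinOfCardEq h1
  refine ⟨fun j => (ε.symm j : W), fun a b h => ε.symm.injective (Subtype.ext h), ?_⟩
  have h2 : p = (p.roots.map fun a => X - C a).prod := hsp.eq_prod_roots_of_monic hm
  have h3 : p.roots.toFinset.val = p.roots := by
    rw [Multiset.toFinset_val, Multiset.dedup_eq_self.2 (nodup_roots hsep)]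
  have h4 : p = ∏ a ∈ p.roots.toFinset, (X - C a) := by
    rw [Finset.prod, h3]
    exact h2
  have h5 : ∏ a ∈ p.roots.toFinset, (X - C a) = ∏ a : p.roots.toFinset, (X - C (a : W)) :=
    (Finset.prod_coe_sort _ _).symm
  have h6 : (∏ a : p.roots.toFinset, (X - C (a : W))) = ∏ j, (X - C (ε.symm j : W)) := by
    refine Fintype.prod_equiv ε _ _ fun a => ?_
    rw [Equiv.symm_apply_apply]
  rw [← h6, ← h5]
  exact h4

section fac

variable {k W : Type} [Field k] [Field W]

theorem fac_sub (φ : k[X] →+* W) (f : k[X][X]) {n l : ℕ} {θ : Fin n → W}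
    (hθ : Function.Injective θ) (hf : f.map φ = ∏ j, (X - C (θ j))) (c : Fin l → ℕ) :
    FacR φ f c ⊆ (fun κ => ap θ κ) '' (Col n c : Set (Fin n → Fin l)) := by
  rintro a ⟨h1, h2⟩
  have hroot : ∀ j, ∃ i, (a i).eval (θ j) = 0 := by
    intro j
    have h3 : (∏ i, a i).eval (θ j) = 0 := by
      rw [h2, hf, eval_prod]
      exact Finset.prod_eq_zero (Finset.mem_univ j) (by simp)
    rw [eval_prod, Finset.prod_eq_zero_iff] at h3
    obtain ⟨i, -, hi⟩ := h3
    exact ⟨i, hi⟩
  choose κ hκ using hroot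
  have hdvd : ∀ i, ap θ κ i ∣ a i := by
    intro i
    refine Finset.prod_dvd_of_coprime ?_ fun j hj => ?_
    · intro a ha b hb hab
      refine isCoprime_X_sub_C_of_isUnit_sub ?_
      rw [isUnit_iff_ne_zero, sub_ne_zero]
      exact fun h => hab (hθ h)
    · rw [dvd_iff_isRoot, IsRoot, ← (Finset.mem_filter.1 hj).2]
      exact hκ j
  choose q hq using hdvd
  have hqm : ∀ i, (q i).Monic := fun i =>
    (ap_monic (θ := θ) (κ := κ) i).of_mul_monic_left (by rw [← hq]; exact (h1 i).1)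
  have hprod : ∏ i, q i = 1 := by
    have h3 : (∏ i, ap θ κ i) * ∏ i, q i = (∏ i, ap θ κ i) * 1 := by
      rw [← Finset.prod_mul_distrib, mul_one]
      simp only [← hq]
      rw [h2, hf, ap_prod]
    exact mul_left_cancel₀ (Finset.prod_ne_zero_iff.2 fun i _ => (ap_monic i).ne_zero) h3
  have hq1 : ∀ i, q i = 1 := fun i => (hqm i).eq_one_of_isUnit
    (isUnit_of_dvd_one (hprod ▸ Finset.dvd_prod_of_mem q (Finset.mem_univ i)))
  have ha : ∀ i, a i = ap θ κ i := fun i => by rw [hq i, hq1, mul_one]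
  refine ⟨κ, ?_, funext fun i => (ha i).symm⟩
  rw [Finset.mem_coe, mem_Col]
  intro i
  rw [← ap_deg (θ := θ), ← ha, (h1 i).2]

theorem sum_deg_lt (m : ℕ) (v : ℕ → W) :
    (∑ j ∈ Finset.range m, C (v j) * X ^ j : W[X]).degree < (m : WithBot ℕ) := by
  rw [degree_lt_iff_coeff_zero]
  intro j hj
  rw [finset_sum_coeff]
  refine Finset.sum_eq_zero fun i hi => ?_
  rw [coeff_C_mul_X_pow, if_neg]
  have := Finset.mem_range.1 hi
  omega

theorem coeff_mdl (φ : k[X] →+* W) {l : ℕ} (c : Fin l → ℕ) (D : k[X]) (A : Fin l → ℕ → k[X][X])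
    (y : W) (i : Fin l) (j : ℕ) (hj : j < c i) :
    (mdl φ c D A y i).coeff j = eval₂ φ y (A i j) / φ D := by
  unfold mdl
  rw [coeff_add, coeff_X_pow, if_neg hj.ne, zero_add, finset_sum_coeff]
  simp only [coeff_C_mul_X_pow]
  rw [Finset.sum_ite_eq, if_pos (Finset.mem_range.2 hj)]

theorem mdl_monic (φ : k[X] →+* W) {l : ℕ} (c : Fin l → ℕ) (D : k[X]) (A : Fin l → ℕ → k[X][X])
    (y : W) (i : Fin l) :
    (mdl φ c D A y i).Monic ∧ (mdl φ c D A y i).natDegree = c i :=
  ⟨monic_X_pow_add (sum_deg_lt _ _),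
    natDegree_eq_of_degree_eq_some (by
      unfold mdl
      rw [degree_add_eq_left_of_degree_lt (by rw [degree_X_pow]; exact sum_deg_lt _ _),
        degree_X_pow])⟩

end fac

section partC

variable {k M : Type} [Field k] [Field M] [Algebra k[X] M] {n l : ℕ} {θ : Fin n → M}
  {f : k[X][X]} {c : Fin l → ℕ} {H : k[X][X]} {D : k[X]} {A : Fin l → ℕ → k[X][X]}
  {e : Fin l → ℕ → k[X]} {y : (Fin n → Fin l) → M}

/-- The product identity modulo `H`. -/
theorem congr1 (hR : Function.Injective (algebraMap k[X] M))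
    (hf : f.map (algebraMap k[X] M) = ∏ j, (X - C (θ j)))
    (hHm : H.Monic) (hy : Set.InjOn y (Col n c : Set (Fin n → Fin l)))
    (hH : H.map (algebraMap k[X] M) = ∏ κ ∈ Col n c, (X - C (y κ)))
    (hA : ∀ κ ∈ Col n c, ∀ i j, aeval (y κ) (A i j) = algebraMap k[X] M D * (ap θ κ i).coeff j)
    (m : ℕ) :
    H ∣ ((∏ i, (C (C D) * X ^ (c i) + ∑ j ∈ Finset.range (c i), C (A i j) * X ^ j)) -
      C (C (D ^ l)) * f.map C : k[X][X][X]).coeff m := by
  refine dvd_of hR hHm hy hH fun κ hκ => ?_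
  set ψ : k[X][X] →+* M := (aeval (y κ) : k[X][X] →ₐ[k[X]] M).toRingHom with hψ
  have hψ1 : ∀ p, ψ p = aeval (y κ) p := fun p => rfl
  have hψC : ∀ r, ψ (C r) = algebraMap k[X] M r := fun r => by rw [hψ1, aeval_C]
  rw [← hψ1, ← coeff_map]
  have h1 : ∀ i, ((C (C D) * X ^ (c i) + ∑ j ∈ Finset.range (c i), C (A i j) * X ^ j :
      k[X][X][X])).map ψ = C (algebraMap k[X] M D) * ap θ κ i := by
    intro i
    rw [ap_sum hκ i, Polynomial.map_add, Polynomial.map_mul, map_C, Polynomial.map_pow, map_X,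
      Polynomial.map_sum, hψC, mul_add, Finset.mul_sum]
    congr 1
    refine Finset.sum_congr rfl fun j _ => ?_
    rw [Polynomial.map_mul, map_C, Polynomial.map_pow, map_X, hψ1, hA κ hκ, C_mul, mul_assoc]
  rw [Polynomial.map_sub, Polynomial.map_prod, Finset.prod_congr rfl fun i _ => h1 i,
    Polynomial.map_mul, map_C, Polynomial.map_map, hψC, Finset.prod_mul_distrib, ap_prod, ← hf]
  have h2 : ψ.comp C = algebraMap k[X] M := RingHom.ext fun r => hψC r
  rw [h2, Finset.prod_const, Finset.card_univ, Fintype.card_fin, map_pow, C_pow, sub_self,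
    coeff_zero]

/-- The primitive element modulo `H`. -/
theorem congr2 (hR : Function.Injective (algebraMap k[X] M))
    (hHm : H.Monic) (hy : Set.InjOn y (Col n c : Set (Fin n → Fin l)))
    (hH : H.map (algebraMap k[X] M) = ∏ κ ∈ Col n c, (X - C (y κ)))
    (hye : ∀ κ, y κ = ∑ i, ∑ j ∈ Finset.range (c i), algebraMap k[X] M (e i j) * (ap θ κ i).coeff j)
    (hA : ∀ κ ∈ Col n c, ∀ i j, aeval (y κ) (A i j) = algebraMap k[X] M D * (ap θ κ i).coeff j) :
    H ∣ C D * X - ∑ i, ∑ j ∈ Finset.range (c i), C (e i j) * A i j := by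
  refine dvd_of hR hHm hy hH fun κ hκ => ?_
  rw [map_sub, map_mul, aeval_C, aeval_X, map_sum, sub_eq_zero]
  conv_lhs => rw [hye κ]
  rw [Finset.mul_sum]
  refine Finset.sum_congr rfl fun i _ => ?_
  rw [Finset.mul_sum, map_sum]
  refine Finset.sum_congr rfl fun j _ => ?_
  rw [map_mul, aeval_C, hA κ hκ]
  ring

/-- Zeros of `H` give factorisations. -/
theorem maps (h1 : ∀ m, H ∣ ((∏ i, (C (C D) * X ^ (c i) + ∑ j ∈ Finset.range (c i),
      C (A i j) * X ^ j)) - C (C (D ^ l)) * f.map C : k[X][X][X]).coeff m)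
    {W : Type} [Field W] (φ : k[X] →+* W) (hD : φ D ≠ 0) (y₀ : W) (hy : eval₂ φ y₀ H = 0) :
    mdl φ c D A y₀ ∈ FacR φ f c := by
  refine ⟨fun i => mdl_monic φ c D A y₀ i, ?_⟩
  set ψ : k[X][X] →+* W := eval₂RingHom φ y₀ with hψ
  have hψ1 : ∀ p, ψ p = eval₂ φ y₀ p := fun p => rfl
  have hψC : ∀ r, ψ (C r) = φ r := fun r => by rw [hψ1, eval₂_C]
  have h2 : ((∏ i, (C (C D) * X ^ (c i) + ∑ j ∈ Finset.range (c i),
      C (A i j) * X ^ j)) - C (C (D ^ l)) * f.map C : k[X][X][X]).map ψ = 0 := by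
    ext m
    rw [coeff_map, coeff_zero]
    obtain ⟨q, hq⟩ := h1 m
    rw [hq, map_mul, hψ1 H, hy, zero_mul]
  have h3 : ∀ i, ((C (C D) * X ^ (c i) + ∑ j ∈ Finset.range (c i), C (A i j) * X ^ j :
      k[X][X][X])).map ψ = C (φ D) * mdl φ c D A y₀ i := by
    intro i
    unfold mdl
    rw [Polynomial.map_add, Polynomial.map_mul, map_C, Polynomial.map_pow, map_X,
      Polynomial.map_sum, hψC, mul_add, Finset.mul_sum]
    congr 1
    refine Finset.sum_congr rfl fun j _ => ?_
    rw [Polynomial.map_mul, map_C, Polynomial.map_pow, map_X, hψ1, ← mul_assoc, ← C_mul]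
    congr 2
    field_simp
  have h4 : ψ.comp C = φ := RingHom.ext fun r => hψC r
  rw [Polynomial.map_sub, Polynomial.map_prod, Finset.prod_congr rfl fun i _ => h3 i,
    Polynomial.map_mul, map_C, Polynomial.map_map, hψC, Finset.prod_mul_distrib, h4,
    Finset.prod_const, Finset.card_univ, Fintype.card_fin, map_pow, C_pow, ← mul_sub] at h2
  rcases mul_eq_zero.1 h2 with h5 | h5
  · exact absurd (C_eq_zero.1 (eq_zero_of_pow_eq_zero h5)) hD
  · exact sub_eq_zero.1 h5

/-- The value of `y`. -/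
theorem val_y (h2 : H ∣ C D * X - ∑ i, ∑ j ∈ Finset.range (c i), C (e i j) * A i j)
    {W : Type} [Field W] (φ : k[X] →+* W) (hD : φ D ≠ 0) (y₀ : W) (hy : eval₂ φ y₀ H = 0) :
    y₀ = ∑ i, ∑ j ∈ Finset.range (c i), φ (e i j) * (mdl φ c D A y₀ i).coeff j := by
  obtain ⟨q, hq⟩ := h2
  have h3 := congrArg (eval₂ φ y₀) hq
  rw [eval₂_mul, hy, zero_mul, eval₂_sub, eval₂_mul, eval₂_C, eval₂_X, eval₂_finset_sum,
    sub_eq_zero] at h3
  have h4 : φ D * ∑ i, ∑ j ∈ Finset.range (c i), φ (e i j) * (mdl φ c D A y₀ i).coeff j =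
      ∑ i, eval₂ φ y₀ (∑ j ∈ Finset.range (c i), C (e i j) * A i j) := by
    rw [Finset.mul_sum]
    refine Finset.sum_congr rfl fun i _ => ?_
    rw [Finset.mul_sum, eval₂_finset_sum]
    refine Finset.sum_congr rfl fun j hj => ?_
    rw [eval₂_mul, eval₂_C, coeff_mdl _ _ _ _ _ _ _ (Finset.mem_range.1 hj)]
    field_simp
  rw [← h4] at h3
  exact mul_left_cancel₀ hD h3

theorem bij (hm : f.Monic) (hn : f.natDegree = n)
    (hHm : H.Monic) (hHd : H.natDegree = (Col n c).card)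
    (hdisc : ∃ A B : k[X][X], A * H + B * derivative H = C D)
    {E : k[X]} (hED : E ∣ D) (hE : ∃ A B : k[X][X], A * f + B * derivative f = C E)
    (h1 : ∀ m, H ∣ ((∏ i, (C (C D) * X ^ (c i) + ∑ j ∈ Finset.range (c i),
      C (A i j) * X ^ j)) - C (C (D ^ l)) * f.map C : k[X][X][X]).coeff m)
    (h2 : H ∣ C D * X - ∑ i, ∑ j ∈ Finset.range (c i), C (e i j) * A i j)
    (W : Type) [Field W] (φ : k[X] →+* W) (hD : φ D ≠ 0) :
    Set.BijOn (mdl φ c D A) {y | eval₂ φ y H = 0} (FacR φ f c) := by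
  have sepW : ∀ {W : Type} [Field W] (φ : k[X] →+* W) {p : k[X][X]} {d : k[X]}
      (hd : φ d ≠ 0) (h : ∃ A B : k[X][X], A * p + B * derivative p = C d), (p.map φ).Separable := by
    intro W _ φ p d hd h
    obtain ⟨a, b, hab⟩ := h
    refine ⟨C (φ d)⁻¹ * a.map φ, C (φ d)⁻¹ * b.map φ, ?_⟩
    have h3 := congrArg (Polynomial.map φ) hab
    rw [Polynomial.map_add, Polynomial.map_mul, Polynomial.map_mul, map_C, ← derivative_map] at h3
    have h4 : C (φ d)⁻¹ * C (φ d) = (1 : W[X]) := by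
      rw [← C_mul, inv_mul_cancel₀ hd, C_1]
    linear_combination C (φ d)⁻¹ * h3 + h4
  have hinj : ∀ {W : Type} [Field W] (φ : k[X] →+* W) (hD : φ D ≠ 0),
      Set.InjOn (mdl φ c D A) {y | eval₂ φ y H = 0} := by
    intro W _ φ hD a ha b hb hab
    rw [val_y h2 φ hD a ha, hab, ← val_y h2 φ hD b hb]
  refine ⟨fun y₀ hy₀ => maps h1 φ hD y₀ hy₀, hinj φ hD, ?_⟩
  -- surjectivity
  intro a ha
  set W' := AlgebraicClosure W with hW'
  set φ' : k[X] →+* W' := (algebraMap W W').comp φ with hφ'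
  have hD' : φ' D ≠ 0 := fun h => hD ((algebraMap W W').injective (h.trans (map_zero _).symm))
  have hE' : φ' E ≠ 0 := by
    obtain ⟨q, hq⟩ := hED
    intro h
    apply hD'
    rw [hq, map_mul, h, zero_mul]
  have hsurj : Set.SurjOn (mdl φ' c D A) {y | eval₂ φ' y H = 0} (FacR φ' f c) := by
    obtain ⟨θ', hθ', hf'⟩ := exists_idx (f.map φ') (hm.map _) (IsAlgClosed.splits _)
      (sepW φ' hE' hE) (n := n) (by rw [hm.natDegree_map, hn])
    have h3 := fac_sub φ' f hθ' hf' c
    have hfin : ((fun κ => ap θ' κ) '' (Col n c : Set (Fin n → Fin l))).Finite :=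
      (Set.toFinite _).image _
    have h4 : (FacR φ' f c).ncard ≤ (Col n c).card := by
      refine (Set.ncard_le_ncard h3 hfin).trans ((Set.ncard_image_le (Set.toFinite _)).trans ?_)
      rw [Set.ncard_coe_finset]
    have h5 : {y : W' | eval₂ φ' y H = 0} = ((H.map φ').roots.toFinset : Set W') := by
      ext x
      rw [Finset.mem_coe, Multiset.mem_toFinset, mem_roots (hHm.map φ').ne_zero, IsRoot, eval_map]
      rfl
    have h6 : {y : W' | eval₂ φ' y H = 0}.ncard = (Col n c).card := by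
      rw [h5, Set.ncard_coe_finset, Multiset.toFinset_card_of_nodup
        (nodup_roots (sepW φ' hD' hdisc)),
        ← (IsAlgClosed.splits (H.map φ')).natDegree_eq_card_roots, hHm.natDegree_map, hHd]
    have h7 : mdl φ' c D A '' {y | eval₂ φ' y H = 0} = FacR φ' f c := by
      refine Set.eq_of_subset_of_ncard_le ?_ ?_ (hfin.subset h3)
      · rintro _ ⟨y₀, hy₀, rfl⟩
        exact maps h1 φ' hD' y₀ hy₀
      · rw [Set.ncard_image_of_injOn (hinj φ' hD'), h6]
        exact h4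
    rw [Set.SurjOn, h7]
  have ha' : (fun i => (a i).map (algebraMap W W')) ∈ FacR φ' f c := by
    obtain ⟨h3, h4⟩ := ha
    refine ⟨fun i => ⟨(h3 i).1.map _, by rw [(h3 i).1.natDegree_map, (h3 i).2]⟩, ?_⟩
    rw [← Polynomial.map_prod, h4, Polynomial.map_map]
  obtain ⟨y', hy', hya⟩ := hsurj ha'
  have h3 := val_y h2 φ' hD' y' hy'
  rw [hya] at h3
  set y₀ : W := ∑ i, ∑ j ∈ Finset.range (c i), φ (e i j) * (a i).coeff j with hy₀
  have h4 : algebraMap W W' y₀ = y' := by
    rw [h3, hy₀, map_sum]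
    refine Finset.sum_congr rfl fun i _ => ?_
    rw [map_sum]
    refine Finset.sum_congr rfl fun j _ => ?_
    rw [map_mul, coeff_map]
    rfl
  have hev : ∀ p : k[X][X], algebraMap W W' (eval₂ φ y₀ p) = eval₂ φ' y' p := by
    intro p
    rw [hom_eval₂, h4]
  refine ⟨y₀, ?_, ?_⟩
  · show eval₂ φ y₀ H = 0
    apply (algebraMap W W').injective
    rw [hev, map_zero]
    exact hy'
  · funext i
    apply Polynomial.map_injective (algebraMap W W') (algebraMap W W').injective
    rw [← congrFun hya i]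
    unfold mdl
    rw [Polynomial.map_add, Polynomial.map_pow, map_X, Polynomial.map_sum]
    congr 1
    refine Finset.sum_congr rfl fun j _ => ?_
    rw [Polynomial.map_mul, map_C, Polynomial.map_pow, map_X, map_div₀, hev]
    rfl

end partC

end Run7.h886.TG
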