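import Pool.Agent.Run7.h886.TG.NvL
import Pool.Agent.Run7.h973.TG.Dv
import Pool.Agent.Run7.h984.TS.Double
import Pool.Agent.Run7.h437.TS.W

/-!
# Weil estimates for the curves of factorisations: tools

Project TG (helper784), piece W, helper886.
-/

set_option autoImplicit false
set_option linter.all false

open Polynomial
open scoped Classical

namespace Run7.h886.TG

open Run7.h784.TG (FacR mdl IsMd evt nv zp)
open Run7.h875.TS (chi cd IsPC GSq ev2)
open Run7.h437.TS (card_y_le card_zero_le abs_chi_le chi_mul chi_sq one_le_sqrt_cd)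
open Run7.h984.TS (Filt filt_deg)

theorem filt_deg' {R : Type} [CommRing R] : Filt (fun (x : R[X]) e => x.natDegree ≤ e) where
  zero e := by rw [natDegree_zero]; exact Nat.zero_le e
  one := by rw [natDegree_one]
  add hx hy := natDegree_add_le_of_degree_le hx hy
  neg hx := by rw [natDegree_neg]; exact hx
  mono he hx := hx.trans he
  mul hx hy := natDegree_mul_le_of_le hx hy

theorem abs_finsum_le {α : Type} {s : Set α} (hs : s.Finite) (ψ : α → ℝ) (h : ∀ a, |ψ a| ≤ 1) :
    |∑ᶠ a ∈ s, ψ a| ≤ (s.ncard : ℝ) := by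
  rw [finsum_mem_eq_finite_toFinset_sum _ hs, Set.ncard_eq_toFinset_card _ hs]
  calc _ ≤ ∑ a ∈ hs.toFinset, |ψ a| := Finset.abs_sum_le_sum_abs _ _
    _ ≤ ∑ a ∈ hs.toFinset, (1 : ℝ) := Finset.sum_le_sum fun a _ => h a
    _ = _ := by simp

theorem ncard_eq_finsum {α : Type} {s : Set α} (hs : s.Finite) :
    (s.ncard : ℝ) = ∑ᶠ a ∈ s, (1 : ℝ) := by
  rw [finsum_mem_eq_finite_toFinset_sum _ hs, Set.ncard_eq_toFinset_card _ hs]
  simp

/-- Comparison of the sum over the factorisations with the sum over the points of the model. -/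
theorem compare {k F : Type} [Field k] [Field F] [Fintype F] [Algebra k F] {f : k[X][X]} {l : ℕ}
    {c : Fin l → ℕ} {H : k[X][X]} {D : k[X]} {A : Fin l → ℕ → k[X][X]} (hf : f.Monic)
    (hM : IsMd f c H D A) (w : F → ℝ) (ψ : F → (Fin l → F[X]) → ℝ) (h : F → F → ℝ)
    (hw : ∀ t, |w t| ≤ 1) (hψ : ∀ t a, |ψ t a| ≤ 1) (hh : ∀ t y, |h t y| ≤ 1)
    (heq : ∀ t y, aeval t D ≠ 0 → ev2 t y H = 0 →
      h t y = w t * ψ t (mdl (evt (k := k) t) c D A y)) :
    |(∑ t : F, w t * ∑ᶠ a ∈ FacR (evt (k := k) t) f c, ψ t a) -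
      ∑ z ∈ Finset.univ.filter (fun z : F × F => ev2 z.1 z.2 H = 0), h z.1 z.2| ≤
      ((2 ^ f.natDegree) ^ l + H.natDegree) * D.natDegree := by
  have h1 : ∑ z ∈ Finset.univ.filter (fun z : F × F => ev2 z.1 z.2 H = 0), h z.1 z.2 =
      ∑ t : F, ∑ y ∈ Finset.univ.filter (fun y : F => ev2 t y H = 0), h t y := by
    rw [Finset.sum_filter, Fintype.sum_prod_type]
    refine Finset.sum_congr rfl fun t _ => ?_
    rw [Finset.sum_filter]
  rw [h1, ← Finset.sum_sub_distrib]
  have h2 : ∀ t : F, |w t * ∑ᶠ a ∈ FacR (evt (k := k) t) f c, ψ t a -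
      ∑ y ∈ Finset.univ.filter (fun y : F => ev2 t y H = 0), h t y| ≤
      if aeval t D = 0 then ((2 ^ f.natDegree) ^ l + H.natDegree : ℝ) else 0 := by
    intro t
    obtain ⟨hfin, hcard⟩ := Run7.h973.TG.facR_bound (evt (k := k) t) f hf c
    split_ifs with ht
    · have h3 : |w t * ∑ᶠ a ∈ FacR (evt (k := k) t) f c, ψ t a| ≤ (2 ^ f.natDegree) ^ l := by
        rw [abs_mul]
        calc |w t| * |∑ᶠ a ∈ FacR (evt (k := k) t) f c, ψ t a| ≤
            1 * ((FacR (evt (k := k) t) f c).ncard : ℝ) := by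
              refine mul_le_mul (hw t) (abs_finsum_le hfin _ (hψ t)) (abs_nonneg _) zero_le_one
          _ ≤ _ := by
              rw [one_mul]
              exact_mod_cast hcard
      have h4 : |∑ y ∈ Finset.univ.filter (fun y : F => ev2 t y H = 0), h t y| ≤ H.natDegree := by
        calc |∑ y ∈ Finset.univ.filter (fun y : F => ev2 t y H = 0), h t y| ≤
            ∑ y ∈ Finset.univ.filter (fun y : F => ev2 t y H = 0), |h t y| :=
              Finset.abs_sum_le_sum_abs _ _
          _ ≤ ∑ y ∈ Finset.univ.filter (fun y : F => ev2 t y H = 0), (1 : ℝ) :=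
              Finset.sum_le_sum fun y _ => hh t y
          _ = ((Finset.univ.filter (fun y : F => ev2 t y H = 0)).card : ℝ) := by simp
          _ ≤ (H.natDegree : ℝ) := by exact_mod_cast card_y_le hM.pc.monic t
      have h5 := abs_sub (w t * ∑ᶠ a ∈ FacR (evt (k := k) t) f c, ψ t a)
        (∑ y ∈ Finset.univ.filter (fun y : F => ev2 t y H = 0), h t y)
      linarith
    · have h6 : {y : F | eval₂ (evt (k := k) t) y H = 0} =
          ((Finset.univ.filter (fun y : F => ev2 t y H = 0) : Finset F) : Set F) := by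
        ext y
        simp only [Set.mem_setOf_eq, Finset.coe_filter, Finset.mem_univ, true_and]
        exact Iff.rfl
      have h5 : w t * ∑ᶠ a ∈ FacR (evt (k := k) t) f c, ψ t a =
          ∑ y ∈ Finset.univ.filter (fun y : F => ev2 t y H = 0), h t y := by
        have h7 := finsum_mem_eq_of_bijOn (f := fun y => ψ t (mdl (evt (k := k) t) c D A y))
          (g := fun a => ψ t a) _ (hM.bij F (evt (k := k) t) ht) fun x _ => rfl
        rw [← h7, h6, finsum_mem_coe_finset, Finset.mul_sum]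
        refine Finset.sum_congr rfl fun y hy => ?_
        rw [Finset.mem_filter] at hy
        exact (heq t y ht hy.2).symm
      rw [h5, sub_self, abs_zero]
  calc _ ≤ ∑ t : F, |w t * ∑ᶠ a ∈ FacR (evt (k := k) t) f c, ψ t a -
        ∑ y ∈ Finset.univ.filter (fun y : F => ev2 t y H = 0), h t y| :=
        Finset.abs_sum_le_sum_abs _ _
    _ ≤ ∑ t : F, (if aeval t D = 0 then ((2 ^ f.natDegree) ^ l + H.natDegree : ℝ) else 0) :=
        Finset.sum_le_sum fun t _ => h2 t
    _ = (Finset.univ.filter fun t : F => aeval t D = 0).card *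
          ((2 ^ f.natDegree) ^ l + H.natDegree : ℝ) := by
        rw [← Finset.sum_filter, Finset.sum_const, nsmul_eq_mul]
    _ ≤ D.natDegree * ((2 ^ f.natDegree) ^ l + H.natDegree : ℝ) := by
        gcongr
        exact_mod_cast card_zero_le hM.pc.ne
    _ = _ := by ring

/-- Reduction modulo a monic polynomial: degrees of the coefficients. -/
theorem mod_bound {k : Type} [Field k] (H : k[X][X]) (d₀ : ℕ) : ∃ E : ℕ, ∀ (p : k[X][X]) (N : ℕ),
    p.natDegree ≤ d₀ → (∀ i, (p.coeff i).natDegree ≤ N) →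
    ∀ i, ((p %ₘ H).coeff i).natDegree ≤ N + E := by
  refine ⟨∑ j ∈ Finset.range (d₀ + 1), cdg ((X ^ j : k[X][X]) %ₘ H), fun p N hp hN i => ?_⟩
  have h1 : p %ₘ H = ∑ j ∈ Finset.range (d₀ + 1), C (p.coeff j) * ((X ^ j : k[X][X]) %ₘ H) := by
    have h2 : p = ∑ j ∈ Finset.range (d₀ + 1), p.coeff j • (X ^ j : k[X][X]) := by
      conv_lhs => rw [p.as_sum_range' (d₀ + 1) (by omega)]
      refine Finset.sum_congr rfl fun j _ => ?_
      rw [← C_mul_X_pow_eq_monomial, smul_eq_C_mul]
    have h3 : modByMonicHom H p = ∑ j ∈ Finset.range (d₀ + 1),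
        p.coeff j • modByMonicHom H (X ^ j : k[X][X]) := by
      conv_lhs => rw [h2, map_sum]
      refine Finset.sum_congr rfl fun j _ => ?_
      rw [map_smul]
    have h4 : modByMonicHom H p = p %ₘ H := rfl
    rw [← h4, h3]
    refine Finset.sum_congr rfl fun j _ => ?_
    rw [smul_eq_C_mul]
    rfl
  rw [h1, finset_sum_coeff]
  refine natDegree_sum_le_of_forall_le _ _ fun j hj => ?_
  rw [coeff_C_mul]
  refine natDegree_mul_le.trans (add_le_add (hN j) ((le_cdg _ i).trans ?_))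
  exact Finset.single_le_sum (f := fun j => cdg ((X ^ j : k[X][X]) %ₘ H)) (fun _ _ => Nat.zero_le _) hj

section G

variable {k : Type} [Field k]

/-- The product of the factors in `B`, with denominators cleared. -/
noncomputable def QB {l : ℕ} (c : Fin l → ℕ) (D : k[X]) (A : Fin l → ℕ → k[X][X])
    (B : Finset (Fin l)) : k[X][X][X] :=
  ∏ i ∈ B, (C (C D) * X ^ (c i) + ∑ j ∈ Finset.range (c i), C (A i j) * X ^ j)

/-- The resultant. -/
noncomputable def G0 {l : ℕ} (c : Fin l → ℕ) (D : k[X]) (A : Fin l → ℕ → k[X][X])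
    (B : Finset (Fin l)) {g : ℕ} (z : Fin (2 * g + 1) → k[X]) : k[X][X] :=
  resultant (QB c D A B) ((zq z).map C) (∑ i ∈ B, c i) (2 * g)

theorem QB_map {l : ℕ} (c : Fin l → ℕ) (D : k[X]) (A : Fin l → ℕ → k[X][X]) (B : Finset (Fin l))
    {W : Type} [Field W] (φ : k[X] →+* W) (hD : φ D ≠ 0) (y : W) :
    (QB c D A B).map (eval₂RingHom φ y) = C (φ D ^ B.card) * ∏ i ∈ B, mdl φ c D A y i := by
  set ψ : k[X][X] →+* W := eval₂RingHom φ y with hψ
  have hψ1 : ∀ p, ψ p = eval₂ φ y p := fun p => rfl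
  have hψC : ∀ r, ψ (C r) = φ r := fun r => by rw [hψ1, eval₂_C]
  have h3 : ∀ i, ((C (C D) * X ^ (c i) + ∑ j ∈ Finset.range (c i), C (A i j) * X ^ j :
      k[X][X][X])).map ψ = C (φ D) * mdl φ c D A y i := by
    intro i
    unfold mdl
    rw [Polynomial.map_add, Polynomial.map_mul, map_C, Polynomial.map_pow, map_X,
      Polynomial.map_sum, hψC, mul_add, Finset.mul_sum]
    congr 1
    refine Finset.sum_congr rfl fun j _ => ?_
    rw [Polynomial.map_mul, map_C, Polynomial.map_pow, map_X, hψ1, ← mul_assoc, ← C_mul]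
    congr 2
    field_simp
  unfold QB
  rw [Polynomial.map_prod, Finset.prod_congr rfl fun i _ => h3 i, Finset.prod_mul_distrib,
    Finset.prod_const, C_pow]

theorem mdl_md {l : ℕ} (c : Fin l → ℕ) (D : k[X]) (A : Fin l → ℕ → k[X][X])
    {W : Type} [Field W] (φ : k[X] →+* W) (y : W) (i : Fin l) :
    (mdl φ c D A y i).Monic ∧ (mdl φ c D A y i).natDegree = c i := by
  have h : (∑ j ∈ Finset.range (c i), C (eval₂ φ y (A i j) / φ D) * X ^ j : W[X]).degree <
      (c i : WithBot ℕ) := by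
    rw [degree_lt_iff_coeff_zero]
    intro j hj
    rw [finset_sum_coeff]
    refine Finset.sum_eq_zero fun i hi => ?_
    rw [coeff_C_mul_X_pow, if_neg]
    have := Finset.mem_range.1 hi
    omega
  refine ⟨monic_X_pow_add h, natDegree_eq_of_degree_eq_some ?_⟩
  unfold mdl
  rw [degree_add_eq_left_of_degree_lt (by rw [degree_X_pow]; exact h), degree_X_pow]

theorem G0_eval {l : ℕ} (c : Fin l → ℕ) (D : k[X]) (A : Fin l → ℕ → k[X][X]) (B : Finset (Fin l))
    {g : ℕ} (z : Fin (2 * g + 1) → k[X])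
    {W : Type} [Field W] (φ : k[X] →+* W) (hD : φ D ≠ 0) (y : W) :
    eval₂ φ y (G0 c D A B z) =
      φ D ^ (2 * (B.card * g)) * nv (∏ i ∈ B, mdl φ c D A y i) (zp φ z) := by
  set ψ : k[X][X] →+* W := eval₂RingHom φ y with hψ
  have hψC : ψ.comp C = φ := by
    refine RingHom.ext fun r => ?_
    show eval₂ φ y (C r) = φ r
    rw [eval₂_C]
  have h1 : eval₂ φ y (G0 c D A B z) = ψ (G0 c D A B z) := rfl
  have hm : (∏ i ∈ B, mdl φ c D A y i).Monic :=
    monic_prod_of_monic _ _ fun i _ => (mdl_md c D A φ y i).1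
  have hd : (∏ i ∈ B, mdl φ c D A y i).natDegree = ∑ i ∈ B, c i := by
    rw [natDegree_prod_of_monic _ _ fun i _ => (mdl_md c D A φ y i).1]
    exact Finset.sum_congr rfl fun i _ => (mdl_md c D A φ y i).2
  rw [h1, G0, ← resultant_map_map, QB_map c D A B φ hD y, Polynomial.map_map, hψC, zq_map,
    resultant_C_mul_left, nv_eq _ _ hm (2 * g) (zp_natDegree φ z), hd, ← pow_mul]
  congr 2
  ring

theorem G0_bound {l : ℕ} (c : Fin l → ℕ) (D : k[X]) (A : Fin l → ℕ → k[X][X]) (B : Finset (Fin l))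
    (g : ℕ) : ∃ d₀ E₀ : ℕ, ∀ (z : Fin (2 * g + 1) → k[X]) (N : ℕ), (∀ i, (z i).natDegree ≤ N) →
      (G0 c D A B z).natDegree ≤ d₀ ∧ ∀ i, ((G0 c D A B z).coeff i).natDegree ≤ E₀ * (1 + N) := by
  set Q := QB c D A B with hQ
  set dQ : ℕ := ∑ j ∈ Q.support, (Q.coeff j).natDegree with hdQ
  set eQ : ℕ := ∑ j ∈ Q.support, cdg (Q.coeff j) with heQ
  have h1 : ∀ j, (Q.coeff j).natDegree ≤ dQ := by
    intro j
    by_cases h : j ∈ Q.support
    · exact Finset.single_le_sum (f := fun j => (Q.coeff j).natDegree) (fun _ _ => Nat.zero_le _) h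
    · rw [notMem_support_iff.1 h]; simp
  have h2 : ∀ j i, ((Q.coeff j).coeff i).natDegree ≤ eQ := by
    intro j i
    by_cases h : j ∈ Q.support
    · exact (le_cdg _ i).trans
        (Finset.single_le_sum (f := fun j => cdg (Q.coeff j)) (fun _ _ => Nat.zero_le _) h)
    · rw [notMem_support_iff.1 h]; simp
  set s : ℕ := ∑ i ∈ B, c i with hs
  refine ⟨(s + 2 * g) * dQ, (s + 2 * g) * (eQ + 1), fun z N hz => ⟨?_, ?_⟩⟩
  · refine filt_deg'.resultant s (2 * g) h1 fun j => ?_
    rw [coeff_map, natDegree_C]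
    exact Nat.zero_le _
  · have h3 : ∀ j, ((zq z).coeff j).natDegree ≤ N := zq_bound z N hz
    intro i
    have h4 := ((filt_deg (F := k)).lift).resultant (f := Q) (g := (zq z).map C) (e := eQ + N)
      s (2 * g) (fun j i => (h2 j i).trans (by omega)) (fun j i => by
        rw [coeff_map, coeff_C]
        split_ifs
        · exact (h3 j).trans (by omega)
        · simp) i
    refine le_trans h4 ?_
    have h5 : eQ + N ≤ (eQ + 1) * (1 + N) := by nlinarith
    calc (s + 2 * g) * (eQ + N) ≤ (s + 2 * g) * ((eQ + 1) * (1 + N)) := Nat.mul_le_mul_left _ h5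
      _ = _ := by ring

end G

end Run7.h886.TG
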